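import Pool.Agent.AND2B.Base
import Pool.Agent.ATT.Stmts

/-!
# AND2B: the network of a configuration in the languages of `AND2B` and of `ATT`
-/

set_option autoImplicit false
set_option linter.unusedSectionVars false

open MeasureTheory ProbabilityTheory

open scoped BigOperators NNReal ENNReal Matrix

noncomputable section

namespace Pool.Agent.AND2B.H28

open Pool.Agent.Anderson hiding box mem_box card_box
open Pool.Agent.Loc Pool.Agent.Mob Pool.Agent.Helper54.Bal
  Pool.Agent.Helper96.EXP Pool.Agent.BED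
open Pool.Agent.LE.MN Pool.Agent.LE.CL Pool.Agent.LE.IR Pool.Agent.LE.QD
open Pool.Agent.AND2B
open Pool.Agent.ANP (Cfg gm Win)

variable {d M : ℕ} [NeZero M]

/-- the hopping minus the energy -/
def Hm (d M : ℕ) [NeZero M] (E : ℝ) : Matrix (Tor d M) (Tor d M) ℝ := Hr 0 E

theorem hN_eq (E : ℝ) (T : Cfg (Tor d M)) : ATT.hN (Hm d M E) T = Hr (Vef T) E := by
  funext x y
  unfold ATT.hN Hm Hr Vef
  simp only [Matrix.add_apply, Matrix.diagonal_apply]
  split_ifs with h
  · simp only [Pi.zero_apply]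
    ring
  · ring

theorem ka_eq (e₀ : ℝ) (T : Cfg (Tor d M)) : ATT.ka e₀ e₀ T = kap e₀ T := by
  funext x
  unfold ATT.ka kap
  split_ifs with h
  · rw [h]
    simp
  · rfl

theorem GT_eq (E e₀ : ℝ) (T : Cfg (Tor d M)) : ATT.GT (Hm d M E) e₀ e₀ T = net E e₀ T := by
  unfold ATT.GT net res
  rw [hN_eq, ka_eq]

end Pool.Agent.AND2B.H28
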