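import Pool.Agent.Helper89_FAR.Geo
import Pool.Agent.Helper28_AHH.Net

/-!
# AND2B: the sites far from the cluster are light (helper28)

`hfar`, `hfar₀`: the fields `far`, `far₀` of `ATT.Pa.Hyp`. The plateau function of one site `b`, for the
configuration in the middle of the attempt: its dead sites are those of the protocol and at most `z`
others.
-/

set_option autoImplicit false
set_option linter.unusedSectionVars false

open scoped BigOperators Matrix NNReal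

noncomputable section

namespace Pool.Agent.AND2B.H28

open Pool.Agent.ANR Pool.Agent.ANR.H89
open Pool.Agent.BED (Tor adj ev)
open Pool.Agent.ANP (Cfg)
open Pool.Agent.AND2B

variable {d μ J N : ℕ} {l r : ℕ → ℕ}

/-- the additive constant of the alive distance -/
def rr (d : ℕ) (Dn : ℕ → ℕ) (n z : ℕ) : ℝ :=
  1 + 2 * (∑ i ∈ Finset.range (n + 1), (3 ^ d * Dn i : ℝ) + 3 ^ d * z)

/-- plateau functions for a configuration with at most `z` additional dead sites -/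
theorem plt_geo (hl : Monotone l) {E : ℝ} {T : Cfg (Tor d (2 ^ μ))} {F : Finset (Tor d (2 ^ μ))}
    (hFne : F.Nonempty) {n m : ℕ} (hnm : n < m) {Dn : ℕ → ℕ} {z : ℕ}
    (dd : ℕ → Finset (Tor d (2 ^ μ))) (Z : Finset (Tor d (2 ^ μ)))
    (hdd : ∀ x, T.s x = 0 → (∃ j ≤ n, x ∈ dd j) ∨ x ∈ Z)
    (hcard : ∀ j B, (dd j ∩ (Gt d μ J N l r).blk j B).card ≤ Dn j) (hZ : Z.card ≤ z)
    (hsum : ∑ i ∈ Finset.range (n + 1), (3 ^ d * Dn i : ℝ) / 2 ^ l i + 3 ^ d * z / 2 ^ l m ≤ 1 / 4)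
    (N₀ : ℕ) :
    ∃ φ : Tor d (2 ^ μ) → ℝ, Plt (Hr (Vef T) E) φ ((Finset.univ.filter fun x => T.s x ≠ 0) \ F)
        (2 * d) ∧ (∀ x, φ x ≤ N₀) ∧ (∀ x ∈ F, φ x = 0) ∧
      ∀ y, ∃ x ∈ F, min (N₀ : ℝ) (1 / 2 * (Gt d μ J N l r).D x y - rr d Dn n z) - 1 ≤ φ y := by
  classical
  set Γ := Gt d μ J N l r with hΓ
  have hG : ANP.GeoOk Γ d := ANP.H61.trg d μ l _ hl J N
  set I : Finset ℕ := insert m (Finset.range (n + 1)) with hI
  have hm : m ∉ Finset.range (n + 1) := by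
    rw [Finset.mem_range]
    omega
  set dd' : ℕ → Finset (Tor d (2 ^ μ)) := fun i => if i = m then Z else dd i with hdd'
  set Dn' : ℕ → ℕ := fun i => if i = m then z else Dn i with hDn'
  have hne : ∀ i ∈ Finset.range (n + 1), i ≠ m := fun i hi h => hm (h ▸ hi)
  have hs1 : ∑ i ∈ I, (3 ^ d * Dn' i : ℝ) =
      ∑ i ∈ Finset.range (n + 1), (3 ^ d * Dn i : ℝ) + 3 ^ d * z := by
    rw [hI, Finset.sum_insert hm, add_comm]
    congr 1
    · refine Finset.sum_congr rfl fun i hi => ?_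
      rw [hDn']
      simp only
      rw [if_neg (hne i hi)]
    · rw [hDn']
      simp
  have hs2 : ∑ i ∈ I, (3 ^ d * Dn' i : ℝ) / Γ.L i ≤ 1 / 4 := by
    refine le_trans (le_of_eq ?_) hsum
    have hL : ∀ i, ((Γ.L i : ℕ) : ℝ) = 2 ^ l i := fun i => by
      show ((2 ^ l i : ℕ) : ℝ) = 2 ^ l i
      push_cast
      rfl
    rw [hI, Finset.sum_insert hm, add_comm]
    congr 1
    · refine Finset.sum_congr rfl fun i hi => ?_
      rw [hL, hDn']
      simp only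
      rw [if_neg (hne i hi)]
    · rw [hL, hDn']
      simp
  obtain ⟨φ, h0, hN, hb, hlip, hlow⟩ := plat_set (fun x y : Tor d (2 ^ μ) => Nb x y)
    (fun x y h => h.symm) (fun x y => (Γ.D x y : ℝ))
    (↑(I.biUnion dd') : Set (Tor d (2 ^ μ))) (1 / 2) (rr d Dn n z)
    (fun x y w hw => by
      have := ANP.H61.pth Γ d hG (fun i => Nat.one_le_two_pow) (fun x y => Nb x y)
        (fun x y h => nb_D h) I dd' Dn' (fun i _ B => by
          rw [hdd', hDn']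
          simp only
          split_ifs
          · exact (Finset.card_le_card Finset.inter_subset_left).trans hZ
          · exact hcard i B) hs2 x y w hw
      rw [hs1] at this
      exact this) F hFne N₀
  have halive : ∀ x, x ∉ (↑(I.biUnion dd') : Set (Tor d (2 ^ μ))) → T.s x ≠ 0 := fun x hx h =>
    hx (by
      rw [Finset.mem_coe, Finset.mem_biUnion]
      rcases hdd x h with ⟨j, hj, hxj⟩ | hxZ
      · refine ⟨j, ?_, ?_⟩
        · rw [hI, Finset.mem_insert, Finset.mem_range]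
          exact Or.inr (by omega)
        · rw [hdd']
          simp only
          rw [if_neg (by omega)]
          exact hxj
      · refine ⟨m, Finset.mem_insert_self _ _, ?_⟩
        rw [hdd']
        simp only [if_true]
        exact hxZ)
  have hmemS : ∀ x, x ∉ (↑(I.biUnion dd') : Set (Tor d (2 ^ μ))) → x ∉ F →
      x ∈ ((Finset.univ.filter fun x => T.s x ≠ 0) \ F) := fun x hx hxF => by
    rw [Finset.mem_sdiff, Finset.mem_filter]
    exact ⟨⟨Finset.mem_univ _, halive x hx⟩, hxF⟩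
  refine ⟨φ, plt_tor _ _ h0 (fun x y hxy hne => ?_), hN, hb, hlow⟩
  obtain ⟨a1, a2, a3, a4, a5⟩ := hlip x y hxy hne
  exact ⟨hmemS x a1 a3, hmemS y a2 a4, a5⟩

theorem beta_ok {d : ℕ} {k₀ : ℝ} (hk : 0 < k₀) (hk1 : k₀ ≤ 1) :
    Real.sinh (k₀ / (8 * d)) * (2 * d) ≤ k₀ / 2 := by
  rcases Nat.eq_zero_or_pos d with hd | hd
  · subst hd
    simp
    linarith
  · have hd' : (1 : ℝ) ≤ d := by exact_mod_cast hd
    have e1 : k₀ / (8 * d) ≤ 1 := by
      rw [div_le_one (by positivity)]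
      linarith
    have e2 := sinh_le_two_mul (by positivity : 0 ≤ k₀ / (8 * d)) e1
    calc Real.sinh (k₀ / (8 * d)) * (2 * d) ≤ 2 * (k₀ / (8 * d)) * (2 * d) :=
          mul_le_mul_of_nonneg_right e2 (by positivity)
      _ = k₀ / 2 := by
          field_simp
          norm_num
      _ ≤ _ := le_rfl

/-- THE LEVERAGE OF ONE SITE at a distance larger than `rk` -/
theorem lev_one (hl : Monotone l) {E e₀ k₀ : ℝ} {T : Cfg (Tor d (2 ^ μ))} {n m : ℕ} (hnm : n < m)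
    {Dn : ℕ → ℕ} {z : ℕ} (dd : ℕ → Finset (Tor d (2 ^ μ))) (Z : Finset (Tor d (2 ^ μ)))
    (he : 0 < e₀) (hm : ∀ x, 0 ≤ (T.s x : ℝ) * (T.mb x).im)
    (hdd : ∀ x, T.s x = 0 → (∃ j ≤ n, x ∈ dd j) ∨ x ∈ Z)
    (hcard : ∀ j B, (dd j ∩ (Gt d μ J N l r).blk j B).card ≤ Dn j) (hZ : Z.card ≤ z)
    (hsum : ∑ i ∈ Finset.range (n + 1), (3 ^ d * Dn i : ℝ) / 2 ^ l i + 3 ^ d * z / 2 ^ l m ≤ 1 / 4)
    (hk : 0 < k₀) (hk1 : k₀ ≤ 1) (hal : ∀ x, T.s x ≠ 0 → k₀ ≤ kap e₀ T x)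
    {b x : Tor d (2 ^ μ)} {rk : ℕ} (hbx : rk < (Gt d μ J N l r).D b x) :
    x ≠ b ∧ Lev (Hr (Vef T) E) (kap e₀ T) {b} x (2 / kap e₀ T x *
      Real.exp (-(k₀ / (4 * d) * (rk / 2 - rr d Dn n z - 1)))) := by
  have hne : x ≠ b := by
    rintro rfl
    have hG : ANP.GeoOk (Gt d μ J N l r) d := ANP.H61.trg d μ l _ hl J N
    rw [hG.self] at hbx
    exact absurd hbx (by omega)
  refine ⟨hne, ?_⟩
  have hrr : 0 ≤ rr d Dn n z := by
    unfold rr
    have : 0 ≤ ∑ i ∈ Finset.range (n + 1), (3 ^ d * Dn i : ℝ) :=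
      Finset.sum_nonneg fun i _ => by positivity
    positivity
  obtain ⟨φ, hP, -, hF, hlow⟩ := plt_geo (r := r) (J := J) (N := N) hl (E := E) (T := T)
    (Finset.singleton_nonempty b) hnm dd Z hdd hcard hZ hsum rk
  obtain ⟨y, hy, hφ⟩ := hlow x
  rw [Finset.mem_singleton] at hy
  subst hy
  have h1 : (rk : ℝ) / 2 - rr d Dn n z - 1 ≤ φ x := by
    refine le_trans ?_ hφ
    have h2 : (rk : ℝ) ≤ (Gt d μ J N l r).D y x := by exact_mod_cast hbx.le
    have h3 : (rk : ℝ) / 2 - rr d Dn n z ≤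
        min (rk : ℝ) (1 / 2 * (Gt d μ J N l r).D y x - rr d Dn n z) := by
      refine le_min ?_ ?_
      · have : (0 : ℝ) ≤ rk := Nat.cast_nonneg _
        linarith
      · linarith
    linarith
  have hβ : 0 ≤ k₀ / (8 * d) := by positivity
  have h4 := lev_decay (net_tor E e₀ T he hm) hP hβ (beta_ok hk hk1)
    (fun x hx => by
      rw [Finset.mem_sdiff, Finset.mem_filter] at hx
      exact hal x hx.1.2) hF Finset.sdiff_disjoint (x := x)
    (by rw [Finset.mem_singleton]; exact hne)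
  intro ψ hψ
  refine (h4 ψ hψ).trans (mul_le_mul_of_nonneg_right ?_ ?_)
  · have hkx : 0 < kap e₀ T x := (net_tor E e₀ T he hm).pos x
    refine mul_le_mul_of_nonneg_left (Real.exp_le_exp.2 ?_) (by positivity)
    have h5 := mul_le_mul_of_nonneg_left h1 hβ
    have h6 : k₀ / (4 * d) = 2 * (k₀ / (8 * d)) := by
      rcases Nat.eq_zero_or_pos d with hd | hd
      · subst hd
        simp
      · field_simp
        norm_num
    rw [h6]
    nlinarith
  · unfold Q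
    exact Finset.sum_nonneg fun z _ =>
      mul_nonneg ((net_tor E e₀ T he hm).pos z).le (sq_nonneg _)

/-! ### the attempts -/

/-- the column of the Green function at `b` solves off `b` -/
theorem col_sol {X : Type} [Fintype X] [DecidableEq X] {H : Matrix X X ℝ} {κ : X → ℝ}
    (hN : ANR.Net H κ) (b : X) : Sol H κ {b} fun z => Gr H κ z b := by
  intro x hx
  rw [Finset.mem_singleton] at hx
  rw [(hGeq X H κ hN).1 x b, if_neg hx]

/-- the share of the current which is absorbed at `x` is at most `κ_x` times the leverage -/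
theorem aa_le {X : Type} [Fintype X] [DecidableEq X] {H : Matrix X X ℝ} {κ : X → ℝ}
    (hN : ANR.Net H κ) {b x : X} {L : ℝ} (hL : Lev H κ {b} x L) (hL0 : 0 ≤ L) :
    KIL.aa κ (Gr H κ) b x ≤ κ x * L := by
  have h1 := hL _ (col_sol hN b)
  have h2 : Q κ {b} (fun z => Gr H κ z b) = KIL.gam κ (Gr H κ) b := by
    unfold Q KIL.gam KIL.nn
    refine Finset.sum_congr ?_ fun _ _ => rfl
    ext z
    simp
  have hκ := hN.pos x
  have h0 : 0 ≤ KIL.gam κ (Gr H κ) b := by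
    rw [← h2]
    unfold Q
    exact Finset.sum_nonneg fun z _ => mul_nonneg (hN.pos z).le (sq_nonneg _)
  rw [h2] at h1
  unfold KIL.aa KIL.nn
  rcases eq_or_lt_of_le h0 with h | h
  · rw [← h, div_zero]
    positivity
  · rw [div_le_iff₀ h]
    have := mul_le_mul_of_nonneg_left h1 hκ.le
    linarith

section pa

variable {E e₀ k₀ : ℝ} {n m z rk : ℕ} {Dn : ℕ → ℕ} (A : ATT.Pa (Tor d (2 ^ μ)))

/-- the geometry of an attempt -/
structure PGeo (E e₀ k₀ : ℝ) (n m z rk : ℕ) (Dn : ℕ → ℕ) (J N : ℕ) (l r : ℕ → ℕ) : Prop where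
  hm : A.Hm = Hm d (2 ^ μ) E
  hη : A.η = e₀
  he0 : A.e0 = e₀
  he : 0 < e₀
  lm : Monotone l
  nm : n < m
  dens : ∃ dd : ℕ → Finset (Tor d (2 ^ μ)), (∀ x, A.T₀.s x = 0 → ∃ j ≤ n, x ∈ dd j) ∧
    ∀ j B, (dd j ∩ (Gt d μ J N l r).blk j B).card ≤ Dn j
  hz : A.N + A.Q.card ≤ z
  sum : ∑ i ∈ Finset.range (n + 1), (3 ^ d * Dn i : ℝ) / 2 ^ l i + 3 ^ d * z / 2 ^ l m ≤ 1 / 4
  pos : ∀ x, 0 ≤ (A.T₀.s x : ℝ) * (A.T₀.mb x).im
  hk : 0 < k₀ ∧ k₀ ≤ 1
  al : ∀ x, A.T₀.s x ≠ 0 → k₀ ≤ kap e₀ A.T₀ x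
  /-- the sites of `R` off `Rk` are far from the cluster -/
  rk : ∀ x ∈ A.R, x ∉ A.Rk → ∀ b ∈ A.Q, rk < (Gt d μ J N l r).D b x
  /-- the sites of `R` run -/
  run : ∀ x ∈ A.R, A.T₀.s x ≠ 0

variable {A}

theorem PGeo.s_le (h : PGeo A E e₀ k₀ n m z rk Dn J N l r) {T : Cfg (Tor d (2 ^ μ))}
    {Qr : Finset (Tor d (2 ^ μ))} {Go : Matrix (Tor d (2 ^ μ)) (Tor d (2 ^ μ)) ℂ}
    (hS : A.St T Qr Go) (hv : ∀ x ∈ A.R, A.T₀.s x = A.v) (x : Tor d (2 ^ μ)) :
    T.s x = 0 ∨ T.s x = A.T₀.s x := by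
  by_cases hR : x ∈ A.R
  · rcases hS.run x hR with h1 | h1
    · exact Or.inl h1
    · right
      rw [h1.2, hv x hR]
  · by_cases hQ : x ∈ A.Q
    · by_cases hr : x ∈ Qr
      · exact Or.inr (hS.rem x hr).2
      · exact Or.inl (hS.app x hQ hr).2
    · exact Or.inr (hS.off x hR hQ).2

/-- THE FIELD `far` OF `Hyp` -/
theorem hfar (h : PGeo A E e₀ k₀ n m z rk Dn J N l r) (hv : ∀ x ∈ A.R, A.T₀.s x = A.v)
    (hQ0 : ∀ x ∈ A.Q, A.T₀.s x ≠ 0)
    (T : Cfg (Tor d (2 ^ μ))) (Qr : Finset (Tor d (2 ^ μ)))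
    (Go : Matrix (Tor d (2 ^ μ)) (Tor d (2 ^ μ)) ℂ) (hS : A.St T Qr Go) (b : Tor d (2 ^ μ))
    (hb : b ∈ Qr) (x : Tor d (2 ^ μ)) (hx : x ∈ A.al T) (hxk : x ∉ A.Rk) :
    A.a T b x ≤ 2 * Real.exp (-(k₀ / (4 * d) * (rk / 2 - rr d Dn n z - 1))) := by
  classical
  obtain ⟨dd, hdd, hcard⟩ := h.dens
  have hxR : x ∈ A.R := (Finset.mem_filter.1 hx).1
  have hs := h.s_le hS hv
  have hpos : ∀ y, 0 ≤ (T.s y : ℝ) * (T.mb y).im := fun y => by
    rw [hS.mb]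
    rcases hs y with h1 | h1
    · rw [h1]
      simp
    · rw [h1]
      exact h.pos y
  have hal : ∀ y, T.s y ≠ 0 → k₀ ≤ kap e₀ T y := fun y hy => by
    rcases hs y with h1 | h1
    · exact absurd h1 hy
    · have := h.al y (by rw [← h1]; exact hy)
      unfold kap at this ⊢
      rwa [hS.mb, h1]
  have hZ : (A.kd T ∪ A.Q \ Qr).card ≤ z := by
    refine (Finset.card_union_le _ _).trans (le_trans ?_ h.hz)
    exact Nat.add_le_add hS.num (Finset.card_le_card Finset.sdiff_subset)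
  have hdead : ∀ y, T.s y = 0 → (∃ j ≤ n, y ∈ dd j) ∨ y ∈ A.kd T ∪ A.Q \ Qr := fun y hy => by
    by_cases hyR : y ∈ A.R
    · exact Or.inr (Finset.mem_union_left _ (Finset.mem_filter.2 ⟨hyR, hy⟩))
    · by_cases hyQ : y ∈ A.Q
      · by_cases hyr : y ∈ Qr
        · have := (hS.rem y hyr).2
          rw [hy] at this
          exact absurd this.symm (hQ0 y hyQ)
        · exact Or.inr (Finset.mem_union_right _ (Finset.mem_sdiff.2 ⟨hyQ, hyr⟩))
      · left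
        apply hdd
        rw [← (hS.off y hyR hyQ).2]
        exact hy
  obtain ⟨-, hLev⟩ := lev_one (r := r) (J := J) (N := N) h.lm (E := E) (e₀ := e₀) (k₀ := k₀)
    (T := T) h.nm dd (A.kd T ∪ A.Q \ Qr) h.he hpos hdead hcard hZ h.sum h.hk.1 h.hk.2 hal
    (h.rk x hxR hxk b (hS.sub hb))
  have hnet := net_tor E e₀ T h.he hpos
  have hkx : 0 < kap e₀ T x := hnet.pos x
  have h1 := aa_le hnet hLev (by positivity)
  have e1 : A.a T b x = KIL.aa (kap e₀ T) (Gr (Hr (Vef T) E) (kap e₀ T)) b x := by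
    show KIL.aa (ATT.ka A.η A.e0 T) (ATT.GT A.Hm A.η A.e0 T) b x = _
    rw [h.hm, h.hη, h.he0, GT_eq, ka_eq]
    rfl
  rw [e1]
  refine h1.trans (le_of_eq ?_)
  field_simp

/-- THE FIELD `far₀` OF `Hyp` -/
theorem hfar₀ (h : PGeo A E e₀ k₀ n m z rk Dn J N l r) (b : Tor d (2 ^ μ)) (hb : b ∈ A.Q)
    (x : Tor d (2 ^ μ)) (hx : x ∈ A.R) (hxk : x ∉ A.Rk) :
    kap e₀ A.T₀ b * ‖net E e₀ A.T₀ b x‖ ^ 2 ≤
      2 / k₀ * Real.exp (-(k₀ / (4 * d) * (rk / 2 - rr d Dn n z - 1))) := by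
  classical
  obtain ⟨dd, hdd, hcard⟩ := h.dens
  obtain ⟨hne, hLev⟩ := lev_one (r := r) (J := J) (N := N) h.lm (E := E) (e₀ := e₀) (k₀ := k₀)
    (T := A.T₀) h.nm dd ∅ h.he h.pos (fun y hy => Or.inl (hdd y hy)) hcard
    (by simp) h.sum h.hk.1 h.hk.2 h.al (h.rk x hx hxk b hb) (Dn := Dn) (z := z)
  have hnet := net_tor E e₀ A.T₀ h.he h.pos
  have hkx : 0 < kap e₀ A.T₀ x := hnet.pos x
  have hL0 : 0 ≤ 2 / kap e₀ A.T₀ x *
      Real.exp (-(k₀ / (4 * d) * (rk / 2 - rr d Dn n z - 1))) := by positivity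
  have hxb : x ∉ ({b} : Finset (Tor d (2 ^ μ))) := by
    rw [Finset.mem_singleton]
    exact hne
  obtain ⟨-, -, h3, -⟩ := hLv2 (Tor d (2 ^ μ)) (Hr (Vef A.T₀) E) (Hr (Vef A.T₀) E)
    (kap e₀ A.T₀) (kap e₀ A.T₀) {b} x x _ _ hnet hnet (fun y _ => ⟨rfl, fun _ => rfl⟩) hxb hxb
    hL0 hL0 hLev hLev
  rw [Finset.sum_singleton] at h3
  refine h3.trans (mul_le_mul_of_nonneg_right ?_ (Real.exp_pos _).le)
  have hk := h.al x (h.run x hx)
  exact div_le_div_of_nonneg_left (by norm_num) h.hk.1 hk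

end pa

end Pool.Agent.AND2B.H28
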