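import Pool.Agent.Helper28_AHH.KNum
import Pool.Agent.Helper28_AHH.Hfar
import Pool.Agent.Helper76_ATT.NumC

/-!
# AND2B: the geometry of an attempt in the language of the protocol (helper28)

`KH`: the hypotheses of the field kil. `hfarK`, `hfar₀K`: the hypotheses `hfar`, `hfar₀` of helper76.
-/

set_option autoImplicit false
set_option linter.unusedSectionVars false

open scoped BigOperators NNReal

noncomputable section

namespace Pool.Agent.AND2B.H28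

open Pool.Agent.AND.Num
open Pool.Agent.ANP (Cfg)
open Pool.Agent.AHH (toE bud Rl Al gg)
open Pool.Agent.ATT.H76 (mkA)

variable {d : ℕ} {V : Env d} {c C : ℝ} {n : ℕ} {T₀ T : Cfg V.X} {run₀ run P Q : Finset V.X}

/-- the hypotheses of the field kil -/
structure KH (V : Env d) (c C : ℝ) (n : ℕ) (T₀ : Cfg V.X) (run₀ P : Finset V.X) (T : Cfg V.X)
    (run Q : Finset V.X) : Prop where
  nN : n ≤ V.N
  n1 : 1 ≤ n
  nv₀ : ¬ V.Vi T₀
  nv : ¬ V.Vi T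
  st₀ : AHH.St (toE V c C) (bud V) n (V.kk (n + 1)) T₀ run₀
  fc₀ : V.Fc n (V.kk (n + 1)) ∅ T₀ run₀
  fc : V.Fc n (V.kk (n + 1)) ∅ T run
  rl : Rl (toE V c C) (bud V) n T₀ run₀ P T run
  ne : Q.Nonempty
  pen : ∀ x ∈ Q, x ∉ run ∧ 0 < T.s x
  dia : ∀ x ∈ Q, ∀ y ∈ Q, V.G.D x y ≤ 2 * V.G.L n
  card : Q.card ≤ 3 ^ d * V.G.J * (6 * V.G.L (n - 1) + 1) ^ d
  iso : ∀ x ∈ Q, ∀ y, V.G.D x y ≤ V.G.ρ n → y ∈ Q ∨ y ∈ run ∨ T.s y = 0
  far : ∀ x ∈ Q, ∀ y ∈ P, 3 * V.G.ρ n < V.G.D x y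

/-- the clock of the release phase -/
def sn (V : Env d) (n : ℕ) : ℝ := V.sg (n + 1)

/-- the instance -/
def AA (V : Env d) (c C : ℝ) (n : ℕ) (T : Cfg V.X) (run Q : Finset V.X) (v : V.X → ℝ) :
    ATT.Pa V.X :=
  mkA (Hm d (2 ^ V.μ) V.E) V.e₀ T (run ∩ V.G.nbh Q (V.G.ρ n)) (run ∩ V.G.nbh Q (rkn (sn V n))) Q
    (V.cl (V.kk (n + 1))) v (qn (sn V n)) (c / 2) (4 * C)

namespace KH

variable (h : KH V c C n T₀ run₀ P T run Q)

include h

theorem al (x : V.X) (hx : T.s x ≠ 0) : c / 2 ≤ (T.mb x).im ∧ ‖T.mb x‖ ≤ 2 * C := by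
  have h1 : x ∈ Al T := by
    unfold Al
    rw [Finset.mem_filter]
    exact ⟨Finset.mem_univ _, pos_iff_ne_zero.2 hx⟩
  have h2 : x ∈ Al T₀ := by
    unfold Al at h1 ⊢
    rw [Finset.mem_filter] at h1 ⊢
    refine ⟨Finset.mem_univ _, ?_⟩
    rcases h.rl.chg x with h3 | h3
    · rw [← h3.2]
      exact h1.2
    · exact h3.2.1
  obtain ⟨h3, h4, -⟩ := h.st₀.gau x h2
  unfold gg at h3
  rw [h.rl.mb]
  exact ⟨h3, h4⟩

theorem clk (x : V.X) (hx : T.s x ≠ 0) : V.cl (V.kk (n + 1)) ≤ T.s x := by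
  by_cases hr : x ∈ run
  · have := h.fc.runs x hr
    rw [if_neg (Finset.notMem_empty x)] at this
    rw [this]
  · rcases h.fc.rest x hr with h1 | h1
    · exact absurd h1 hx
    · rw [if_neg (Finset.notMem_empty x)] at h1
      exact h1.1

theorem posn (hc : 0 < c) (x : V.X) : 0 ≤ (T.s x : ℝ) * (T.mb x).im := by
  by_cases hx : T.s x = 0
  · rw [hx]
    simp
  · have := (h.al x hx).1
    have := NNReal.coe_nonneg (T.s x)
    have : 0 ≤ (T.mb x).im := by linarith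
    positivity

theorem kap_le (hc : 0 < c) (he : 0 < V.e₀) (x : V.X) (hx : T.s x ≠ 0) :
    c * sn V n / 2 ≤ kap V.e₀ T x := by
  have h1 := (h.al x hx).1
  have h2 : sn V n ≤ T.s x := by
    have := h.clk x hx
    unfold sn
    exact_mod_cast this
  have h3 : 0 ≤ sn V n := NNReal.coe_nonneg _
  unfold kap
  have h4 : sn V n * (c / 2) ≤ (T.s x : ℝ) * (T.mb x).im :=
    mul_le_mul h2 h1 (by positivity) (NNReal.coe_nonneg _)
  linarith

theorem J1 {a : ℝ} (hV : V.Pre a) : 1 ≤ V.J := hV.sc.scl.J1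

theorem cardQ {a : ℝ} (hV : V.Pre a) : (Q.card : ℝ) ≤ sn V n ^ (-V.c₁) := by
  have h1 := h.card
  have h2 := hV.sc.clu n h.n1 h.nN
  refine le_trans ?_ h2
  exact_mod_cast h1

end KH

/-- numbers of additional dead sites -/
def zz (V : Env d) (n : ℕ) (Q : Finset V.X) : ℕ := ⌊(qn (sn V n))⁻¹ ^ 2260⌋₊ + Q.card

theorem zz_le {a : ℝ} (hV : V.Pre a) (hc₁ : V.c₁ ≤ 1) (hs1 : sn V n ≤ 1)
    (h : KH V c C n T₀ run₀ P T run Q) :
    (zz V n Q : ℝ) ≤ sn V n ^ (-(113 / 100 : ℝ)) + sn V n ^ (-(1 : ℝ)) := by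
  have hs : 0 < sn V n := sg_pos hV (n + 1)
  unfold zz
  push_cast
  refine add_le_add ?_ ?_
  · refine (Nat.floor_le (by have := qn_pos hs; positivity)).trans (le_of_eq ?_)
    rw [qn_inv_pow hs]
    norm_num
  · exact (h.cardQ hV).trans (Real.rpow_le_rpow_of_exponent_ge hs hs1 (by linarith))

/-- for small clocks the number of additional dead sites is at most `Dn (n + 1)` -/
theorem zz_Dn {a : ℝ} (hd : 0 < d) (hV : V.Pre a) (hc₁ : V.c₁ ≤ 1) (hs1 : sn V n ≤ 1 / 2)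
    (h : KH V c C n T₀ run₀ P T run Q) : zz V n Q ≤ V.Dn (n + 1) := by
  have hs : 0 < sn V n := sg_pos hV (n + 1)
  have h1 := zz_le hV hc₁ (by linarith) h
  have hJ := KH.J1 (h := h) hV
  have h2 := hV.sc.dn (n + 1) (by omega)
  have h3 : 2 ^ V.l n ≤ V.Dn (n + 1) := by
    refine le_trans ?_ h2
    have e1 : n + 1 - 1 = n := by omega
    rw [e1]
    have e2 : 2 ^ V.l n ≤ (6 * 2 ^ V.l n + 1) ^ d := by
      calc 2 ^ V.l n ≤ 6 * 2 ^ V.l n + 1 := by omega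
        _ = (6 * 2 ^ V.l n + 1) ^ 1 := (pow_one _).symm
        _ ≤ _ := Nat.pow_le_pow_right (by omega) hd
    have e3 : 1 ≤ 3 ^ d * V.J := Nat.mul_pos (by positivity) hJ
    calc 2 ^ V.l n ≤ 1 * (0 + 1 * (6 * 2 ^ V.l n + 1) ^ d) := by omega
      _ ≤ 3 ^ d * V.J * (V.Kn (n + 1) + 3 ^ d * V.J * (6 * 2 ^ V.l n + 1) ^ d) := by
          gcongr
          omega
  have h4 := hV.sc.llow n h.nN
  have h5 : (zz V n Q : ℝ) ≤ 2 ^ V.l n := by
    refine h1.trans (le_trans ?_ h4)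
    show sn V n ^ (-(113 / 100 : ℝ)) + sn V n ^ (-(1 : ℝ)) ≤ sn V n ^ (-(5 : ℝ))
    have e1 : sn V n ^ (-(113 / 100 : ℝ)) ≤ sn V n ^ (-(4 : ℝ)) :=
      Real.rpow_le_rpow_of_exponent_ge hs (by linarith) (by norm_num)
    have e2 : sn V n ^ (-(1 : ℝ)) ≤ sn V n ^ (-(4 : ℝ)) :=
      Real.rpow_le_rpow_of_exponent_ge hs (by linarith) (by norm_num)
    have e3 : sn V n ^ (-(4 : ℝ)) = sn V n * sn V n ^ (-(5 : ℝ)) := by
      nth_rewrite 2 [← Real.rpow_one (sn V n)]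
      rw [← Real.rpow_add hs]
      norm_num
    have e4 : 0 < sn V n ^ (-(5 : ℝ)) := Real.rpow_pos_of_pos hs _
    nlinarith
  have h6 : zz V n Q ≤ 2 ^ V.l n := by exact_mod_cast h5
  exact h6.trans h3

theorem rk_le {a : ℝ} (hV : V.Pre a) (hs1 : sn V n ≤ 1) (h : KH V c C n T₀ run₀ P T run Q) :
    rkn (sn V n) ≤ V.G.ρ n := by
  have hs : 0 < sn V n := sg_pos hV (n + 1)
  have h1 := hV.sc.rlow n h.nN
  have h2 : (rkn (sn V n) : ℝ) ≤ 2 ^ V.r n := by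
    refine (Nat.floor_le (by positivity)).trans (le_trans ?_ h1)
    exact Real.rpow_le_rpow_of_exponent_ge hs hs1 (by norm_num)
  have h3 : V.G.ρ n = 2 ^ V.r n := rfl
  rw [h3]
  exact_mod_cast h2

theorem Rk_sub {a : ℝ} (hV : V.Pre a) (hs1 : sn V n ≤ 1) (h : KH V c C n T₀ run₀ P T run Q) :
    run ∩ V.G.nbh Q (rkn (sn V n)) ⊆ run ∩ V.G.nbh Q (V.G.ρ n) := by
  refine Finset.inter_subset_inter_left fun x hx => ?_
  unfold ANP.Geo.nbh at hx ⊢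
  rw [Finset.mem_filter] at hx ⊢
  obtain ⟨y, hy, hxy⟩ := hx.2
  exact ⟨Finset.mem_univ _, y, hy, hxy.trans (rk_le hV hs1 h)⟩

/-- THE GEOMETRY OF THE ATTEMPT -/
theorem pgeo {a : ℝ} (hd : 0 < d) (hV : V.Pre a) (he : 0 < V.e₀) (hc : 0 < c) (hc1 : c ≤ 1)
    (hc₁ : V.c₁ ≤ 1) (hs1 : sn V n ≤ 1 / 2) (h : KH V c C n T₀ run₀ P T run Q) (v : V.X → ℝ) :
    PGeo (AA V c C n T run Q v) V.E V.e₀ (c * sn V n / 2) n (n + 1) (zz V n Q) (rkn (sn V n))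
      V.Dn V.J V.N V.l V.r := by
  have hs : 0 < sn V n := sg_pos hV (n + 1)
  have hG : ANP.GeoOk V.G d := ANP.H61.trg d V.μ V.l _ hV.sc.lm V.J V.N
  refine ⟨rfl, rfl, rfl, he, hV.sc.lm, by omega, h.fc.dens, le_rfl, ?_, h.posn hc,
    ⟨by positivity, ?_⟩, fun x hx => h.kap_le hc he x hx, ?_, ?_⟩
  · -- the sum
    have h1 := hV.sc.ds
    have h2 : (zz V n Q : ℝ) ≤ V.Dn (n + 1) := by exact_mod_cast zz_Dn hd hV hc₁ hs1 h
    have h3 : (3 : ℝ) ^ d * (zz V n Q : ℝ) / 2 ^ V.l (n + 1) ≤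
        3 ^ d * V.Dn (n + 1) / 2 ^ V.l (n + 1) := by gcongr
    have h4 : ∑ i ∈ Finset.range (n + 1), (3 ^ d * V.Dn i : ℝ) / 2 ^ V.l i +
        3 ^ d * V.Dn (n + 1) / 2 ^ V.l (n + 1) =
        ∑ i ∈ Finset.range (n + 2), (3 ^ d * V.Dn i : ℝ) / 2 ^ V.l i :=
      (Finset.sum_range_succ _ _).symm
    have h5 : ∑ i ∈ Finset.range (n + 2), (3 ^ d * V.Dn i : ℝ) / 2 ^ V.l i ≤
        ∑ i ∈ Finset.range (V.N + 2), (3 ^ d * V.Dn i : ℝ) / 2 ^ V.l i :=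
      Finset.sum_le_sum_of_subset_of_nonneg
        (Finset.range_subset_range.2 (by have := h.nN; omega)) fun i _ _ => by positivity
    linarith
  · nlinarith
  · intro x hx hxk b hb
    have hx' : x ∈ run := (Finset.mem_inter.1 hx).1
    by_contra hcon
    refine hxk (Finset.mem_inter.2 ⟨hx', ?_⟩)
    unfold ANP.Geo.nbh
    rw [Finset.mem_filter]
    refine ⟨Finset.mem_univ _, b, hb, ?_⟩
    rw [hG.comm]
    exact not_lt.1 hcon
  · intro x hx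
    have hx' : x ∈ run := (Finset.mem_inter.1 hx).1
    have := h.fc.runs x hx'
    rw [if_neg (Finset.notMem_empty x)] at this
    show T.s x ≠ 0
    rw [this]
    exact (AHH.cl_pos V hV.w (lt_of_lt_of_le (by norm_num) hV.th.1) _).ne'

end Pool.Agent.AND2B.H28
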