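import Pool.Agent.AHH.Defs

/-!
# AND2B: the bookkeeping inside a stage, its end, the end of the release phase (helper28)

`mid`: `Md` and `Inc` give `Md` for the next block. `fia`: at the end of a stage the configuration is
good with slightly larger thresholds. `rfa`: the same at the end of the release phase.
-/

set_option autoImplicit false
set_option linter.unusedSectionVars false

open scoped BigOperators NNReal Matrix

noncomputable section

namespace Pool.Agent.AHH.H28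

open Pool.Agent.BED (Tor)
open Pool.Agent.LE.QF (BB KK)
open Pool.Agent.AND2B (net kap Viol)
open Pool.Agent.ANP (Cfg Geo Fc)
open Pool.Agent.AFJ (ind LaR EE)
open Pool.Agent.ABY (vir)
open Pool.Agent.LTG (Fm Bd sT tT qd)
open Pool.Agent.AHH

section pot

variable {X : Type} [Fintype X] [DecidableEq X]

theorem om_pos (Γ : Geo X) (n : ℕ) (B x : X) : 0 < om Γ n B x := Real.exp_pos _

theorem psi_nonneg (Γ : Geo X) (n : ℕ) (P : Finset X) (x : X) : 0 ≤ Psi Γ n P x :=
  Finset.sum_nonneg fun B _ => (om_pos Γ n B x).le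

theorem psi_empty (Γ : Geo X) (n : ℕ) (x : X) : Psi Γ n ∅ x = 0 := by
  unfold Psi
  simp

theorem psi_mono (Γ : Geo X) (n : ℕ) {P P' : Finset X} (h : P ⊆ P') (x : X) :
    Psi Γ n P x ≤ Psi Γ n P' x := by
  unfold Psi
  refine Finset.sum_le_sum_of_subset_of_nonneg (Finset.filter_subset_filter _ h) fun B _ _ =>
    (om_pos Γ n B x).le

theorem psi_union (Γ : Geo X) (n : ℕ) (P : Finset X) (B : X) (hB : Γ.bl n B = B)
    (hd : Disjoint P (Γ.blk n B)) (x : X) :
    Psi Γ n (P ∪ Γ.blk n B) x = Psi Γ n P x + om Γ n B x := by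
  unfold Psi
  rw [Finset.filter_union, Finset.sum_union (Finset.disjoint_filter_filter hd)]
  congr 1
  have h1 : (Γ.blk n B).filter (fun b => Γ.bl n b = b) = {B} := by
    ext b
    simp only [Finset.mem_filter, Geo.blk, Finset.mem_univ, true_and, Finset.mem_singleton]
    constructor
    · rintro ⟨h1, h2⟩
      rw [← h2, h1]
    · rintro rfl
      exact ⟨hB, hB⟩
  rw [h1, Finset.sum_singleton]

theorem phi_nonneg (Γ : Geo X) {τ : ℝ} (hτ : 0 ≤ τ) (n : ℕ) (P : Finset X) (x : X) :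
    0 ≤ Phi Γ τ n P x := by
  unfold Phi ind
  refine add_nonneg (by split_ifs <;> norm_num) (mul_nonneg hτ ?_)
  exact Finset.sum_nonneg fun y _ => (Real.exp_pos _).le

end pot

section conf

variable {d M : ℕ} [NeZero M]

theorem mem_Al {T : Cfg (Tor d M)} {x : Tor d M} : x ∈ Al T ↔ 0 < T.s x := by
  unfold Al
  simp

theorem hf_s (T : Cfg (Tor d M)) (th : ℝ≥0) (U : Finset (Tor d M)) (ζ : Tor d M → ℝ)
    (x : Tor d M) : (T.hf th U ζ).s x = if x ∈ U then th * T.s x else T.s x := rfl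

theorem hf_V (T : Cfg (Tor d M)) (th : ℝ≥0) (U : Finset (Tor d M)) (ζ : Tor d M → ℝ)
    (x : Tor d M) : (T.hf th U ζ).V x = if x ∈ U then T.V x + ζ x else T.V x := rfl

theorem hf_mb (T : Cfg (Tor d M)) (th : ℝ≥0) (U : Finset (Tor d M)) (ζ : Tor d M → ℝ) :
    (T.hf th U ζ).mb = T.mb := rfl

theorem Al_hf (T : Cfg (Tor d M)) {th : ℝ≥0} (hth : 0 < th) (U : Finset (Tor d M))
    (ζ : Tor d M → ℝ) : Al (T.hf th U ζ) = Al T := by
  ext x
  rw [mem_Al, mem_Al, hf_s]
  split_ifs with h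
  · constructor
    · intro h1
      by_contra h2
      have h3 : T.s x = 0 := by
        rw [not_lt] at h2
        exact le_antisymm h2 (zero_le (α := ℝ≥0))
      rw [h3, mul_zero] at h1
      exact lt_irrefl _ h1
    · intro h1
      exact mul_pos hth h1
  · exact Iff.rfl

/-- the numbers used in the bookkeeping -/
structure Nm (V : Env d M) (b : Bud) (n k : ℕ) : Prop where
  th : 0 < V.th ∧ V.th ≤ 1
  c0 : 0 < V.c₀
  e0 : 0 < V.e₀
  D : 0 ≤ V.D₀ ∧ 0 ≤ V.D₁
  inc : 0 ≤ b.inc n k ∧ 0 ≤ b.inL n k ∧ 0 ≤ b.inY n k ∧ 0 ≤ b.nn n k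
  q : 0 ≤ (b.q n k).eps ∧ 0 ≤ (b.q n k).rho ∧ 0 ≤ (b.q n k).lam
  sm : (b.q n k).eps + b.nn n k * V.Cp ≤ 1 / 8 ∧ (b.q n k).rho + b.nn n k * V.Cp ≤ 1 / 8 ∧
    (b.q n k).rho + b.nn n k * V.Cp ≤ (1 - V.u₀) / 2

theorem ww_pos {V : Env d M} {T : Cfg (Tor d M)} {δ : ℝ} (hc : 0 < V.c₀) (he : 0 < V.e₀)
    (hg : Gb V T δ) {x : Tor d M} (hx : x ∈ Al T) : 0 < ww V.e₀ T x := by
  have h1 : 0 < gg T x := lt_of_lt_of_le hc (hg x hx).1
  have h2 : 0 < (T.s x : ℝ) := by exact_mod_cast mem_Al.1 hx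
  unfold ww kap gg at *
  positivity

theorem mid {V : Env d M} {b : Bud} {n k : ℕ} (hN : Nm V b n k) {T₀ T : Cfg (Tor d M)}
    {run₀ run P : Finset (Tor d M)} {B : Tor d M} (hB : V.Γ.bl n B = B)
    (hd : Disjoint P (V.Γ.blk n B)) (hCp : ∀ x, Psi V.Γ n (P ∪ V.Γ.blk n B) x ≤ V.Cp)
    (hcl : Antitone V.cl) (hkk : Monotone V.kk) (hF : Fc V.Γ V.kk V.cl V.Dn n k P T run)
    {ζ : Tor d M → ℝ} (hM : Md V b n k T₀ run₀ P T run)
    (hI : Inc V b n k run B T (T.hf V.th (run ∩ V.Γ.blk n B) ζ)) :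
    Md V b n k T₀ run₀ (P ∪ V.Γ.blk n B) (T.hf V.th (run ∩ V.Γ.blk n B) ζ) run := by
  obtain ⟨hth, hth1⟩ := hN.th
  obtain ⟨i1, i2, i3, i4⟩ := hN.inc
  obtain ⟨q1, q2, q3⟩ := hN.q
  obtain ⟨s1, s2, s3⟩ := hN.sm
  set U := run ∩ V.Γ.blk n B with hU
  set T' := T.hf V.th U ζ with hT'
  have hAl : Al T' = Al T := Al_hf T hth U ζ
  have hPsi : ∀ x, Psi V.Γ n (P ∪ V.Γ.blk n B) x = Psi V.Γ n P x + om V.Γ n B x :=
    psi_union V.Γ n P B hB hd
  have hgg : gg T' = gg T := rfl
  have hgg0 : gg T = gg T₀ := by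
    unfold gg
    rw [hM.mb]
  have hUP : ∀ x ∈ U, x ∉ P := fun x hx hP =>
    (Finset.disjoint_left.1 hd hP) (Finset.mem_inter.1 hx).2
  have hUs : ∀ x ∈ U, T.s x = T₀.s x := fun x hx => by
    rcases hM.clk x with h | h
    · exact h
    · exact absurd h.2.1 (hUP x hx)
  have hU0 : ∀ x ∈ U, 0 < T₀.s x := fun x hx =>
    mem_Al.1 (hM.st0.alv (hM.sub (Finset.mem_inter.1 hx).1))
  -- alive sites at the start
  have hAl0 : ∀ x, x ∈ Al T → x ∈ Al T₀ := by
    intro x hx
    rw [mem_Al] at hx ⊢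
    rcases hM.clk x with h | h
    · rwa [h] at hx
    · exact mem_Al.1 (hM.st0.alv h.1)
  have hGbT₀ := hM.st0.gau
  have hGbT : Gb V T (b.q n k).del := by
    intro x hx
    have := hGbT₀ x (hAl0 x hx)
    unfold gg at this ⊢
    rwa [hM.mb]
  have hGbT' : Gb V T' (b.q n k).del := by
    intro x hx
    rw [hAl] at hx
    exact hGbT x hx
  -- the weights
  have hw : ∀ x ∈ Al T, 0 < ww V.e₀ T x := fun x hx => ww_pos hN.c0 hN.e0 hGbT hx
  have hw' : ∀ x ∈ Al T, 0 < ww V.e₀ T' x := fun x hx =>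
    ww_pos hN.c0 hN.e0 hGbT' (by rw [hAl]; exact hx)
  have hw0 : ∀ x ∈ Al T, 0 < ww V.e₀ T₀ x := fun x hx => ww_pos hN.c0 hN.e0 hGbT₀ (hAl0 x hx)
  have hgpos : ∀ x ∈ Al T, 0 < gg T x := fun x hx => lt_of_lt_of_le hN.c0 (hGbT x hx).1
  have hww' : ∀ x ∈ Al T, ww V.e₀ T' x ≤ ww V.e₀ T x := by
    intro x hx
    have h1 := hgpos x hx
    unfold ww
    rw [hgg]
    refine mul_le_mul_of_nonneg_right ?_ h1.le
    unfold kap
    have h2 : ((T'.s x : ℝ≥0) : ℝ) ≤ T.s x := by
      rw [hT', hf_s]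
      split_ifs
      · push_cast
        have h3 : (V.th : ℝ) ≤ 1 := by exact_mod_cast hth1
        have h4 := NNReal.coe_nonneg (T.s x)
        nlinarith
      · exact le_rfl
    have h3 := mul_le_mul_of_nonneg_right h2 h1.le
    unfold gg at h3
    have h4 : T'.mb = T.mb := rfl
    rw [h4]
    linarith
  have hww0 : ∀ x ∈ Al T, ww V.e₀ T x ≤ ww V.e₀ T₀ x := by
    intro x hx
    have h1 := hgpos x hx
    unfold ww
    rw [← hgg0]
    refine mul_le_mul_of_nonneg_right ?_ h1.le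
    unfold kap
    have h2 : ((T.s x : ℝ≥0) : ℝ) ≤ T₀.s x := by
      rcases hM.clk x with h | ⟨_, _, h⟩
      · rw [h]
      · rw [h]
        push_cast
        have h3 : (V.th : ℝ) ≤ 1 := by exact_mod_cast hth1
        have h4 := NNReal.coe_nonneg (T₀.s x)
        nlinarith
    have h3 := mul_le_mul_of_nonneg_right h2 h1.le
    unfold gg at h3
    rw [← hM.mb]
    linarith
  have hwwe : ∀ x, x ∉ run → ww V.e₀ T' x = ww V.e₀ T x := by
    intro x hx
    have h1 : x ∉ U := fun h => hx (Finset.mem_inter.1 h).1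
    unfold ww
    rw [hgg]
    congr 1
    unfold kap
    rw [hT', hf_s, if_neg h1, hf_mb]
  refine ⟨hM.ctx, hM.fc0, hM.st0, hM.sub, hM.mb, ?_, ?_, ?_, ?_, ?_, ?_, ?_, ?_⟩
  rotate_left 6
  · -- old sites
    intro m hm x hx y hxy
    have hkm : V.cl k ≤ V.cl (V.kk m) :=
      hcl ((hkk (by omega : m ≤ n)).trans hM.ctx.2.1)
    have hrun : ∀ z ∈ run, T.s z ≤ V.cl (V.kk m) := fun z hz => by
      rw [hF.runs z hz]
      split_ifs
      · exact (hcl (Nat.le_succ k)).trans hkm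
      · exact hkm
    have hle : T'.s x ≤ T.s x := by
      rw [hT', hf_s]
      split_ifs
      · exact mul_le_of_le_one_left (zero_le (α := ℝ≥0)) hth1
      · exact le_rfl
    have hxT : V.cl (V.kk m) < T.s x := lt_of_lt_of_le hx hle
    have hxr : x ∉ run := fun h => absurd (hrun x h) (not_le.2 hxT)
    have hyU : y ∉ U := fun h => by
      have := hF.shell m hm x hxr hxT y (Finset.mem_inter.1 h).1
      omega
    rw [hT', hf_s, if_neg hyU]
    exact hM.old m hm x hxT y hxy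
  · obtain ⟨dd, h1, h2⟩ := hM.ded
    refine ⟨dd, fun x hx => h1 x ?_, h2⟩
    rw [hT', hf_s] at hx
    split_ifs at hx
    · rcases mul_eq_zero.1 hx with h | h
      · exact absurd h hth.ne'
      · exact h
    · exact hx
  · intro x
    rw [hT', hf_s]
    by_cases hx : x ∈ U
    · rw [if_pos hx]
      refine Or.inr ⟨hM.sub (Finset.mem_inter.1 hx).1,
        Finset.mem_union_right _ (Finset.mem_inter.1 hx).2, ?_⟩
      rw [hUs x hx]
    · rw [if_neg hx]
      rcases hM.clk x with h | h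
      · exact Or.inl h
      · exact Or.inr ⟨h.1, Finset.mem_union_left _ h.2.1, h.2.2⟩
  · intro x hx
    rw [hT', hf_V]
    have h1 : x ∉ U := fun h => by
      have := hU0 x h
      rw [hx] at this
      exact lt_irrefl _ this
    rw [if_neg h1]
    exact hM.ddV x hx
  · intro x hx y hy
    rw [hAl] at hx hy
    have h1 := hI.ent x hx y hy
    have h2 := hM.ent x hx y hy
    rw [hPsi, mul_add]
    have h3 := norm_add_le (net V.E V.e₀ T' x y - net V.E V.e₀ T x y)
      (net V.E V.e₀ T x y - net V.E V.e₀ T₀ x y)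
    rw [sub_add_sub_cancel] at h3
    linarith
  · intro x hx
    rw [hAl] at hx
    have h1 := hI.lar x hx
    have h2 := hM.lar x hx
    rw [hPsi]
    linarith
  · intro a ha
    have h1 := hI.yin a ha
    have h2 := hM.yin a ha
    rw [hPsi, hgg]
    linarith
  · -- the form
    obtain ⟨εl, εu, bl, bu, hFm, hx, he⟩ := hM.frm
    dsimp only at hx he
    have hps : ∀ x, b.nn n k * Psi V.Γ n P x + b.nn n k * om V.Γ n B x ≤ b.nn n k * V.Cp := by
      intro x
      have := mul_le_mul_of_nonneg_left (hCp x) i4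
      rw [hPsi, mul_add] at this
      exact this
    have hps' : ∀ x, b.nn n k * Psi V.Γ n P x ≤ b.nn n k * V.Cp := by
      intro x
      have h1 := hps x
      have h2 := mul_nonneg i4 (om_pos V.Γ n B x).le
      linarith
    have hratio : ∀ x ∈ Al T, ww V.e₀ T' x / ww V.e₀ T x ≤ 1 := fun x hx =>
      (div_le_one (hw x hx)).2 (hww' x hx)
    have hratio0 : ∀ x ∈ Al T, 0 ≤ ww V.e₀ T' x / ww V.e₀ T x := fun x hx =>
      (div_pos (hw' x hx) (hw x hx)).le
    have hεl : ∀ x ∈ Al T, εl x ≤ 1 / 8 := by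
      intro x hxA
      have h1 := (hx x hxA).2.1
      have h2 := hps' x
      split_ifs at h1
      · have h3 : ww V.e₀ T x / ww V.e₀ T₀ x ≤ 1 := (div_le_one (hw0 x hxA)).2 (hww0 x hxA)
        have h4 := mul_le_mul_of_nonneg_left h3 q1
        linarith
      · linarith
    have hεu : ∀ x ∈ Al T, εu x ≤ (1 + V.u₀) / 2 := by
      intro x hxA
      have h1 := (hx x hxA).2.2.2
      have h2 := hps' x
      linarith
    have hnew := hI.frm εl εu bl bu hFm
      (fun x hxA => ⟨(hx x hxA).1, hεl x hxA, (hx x hxA).2.2.1, hεu x hxA⟩)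
      (fun e => by
        obtain ⟨e1, e2, e3⟩ := he e
        have h2 := hps' (sT e)
        refine ⟨?_, e2, ?_⟩
        · refine le_trans ?_ e1
          have := mul_le_mul_of_nonneg_left (show (1 / 2 : ℝ) ≤
            1 - ((b.q n k).rho + b.nn n k * Psi V.Γ n P (sT e)) by linarith) hN.D.1
          linarith
        · refine e3.trans ?_
          have := mul_le_mul_of_nonneg_left (show
            1 + ((b.q n k).rho + b.nn n k * Psi V.Γ n P (sT e)) ≤ 2 by linarith) hN.D.2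
          linarith)
    refine ⟨_, _, _, _, by rw [hAl]; exact hnew, ?_, ?_⟩
    · intro x hxA
      rw [hAl] at hxA
      obtain ⟨x1, x2, x3, x4⟩ := hx x hxA
      have hom := mul_nonneg i4 (om_pos V.Γ n B x).le
      have hr0 := hratio0 x hxA
      have hr1 := hratio x hxA
      refine ⟨?_, ?_, ?_, ?_⟩
      · have := mul_nonneg x1 hr0
        linarith
      · show εl x * (ww V.e₀ T' x / ww V.e₀ T x) + b.nn n k * om V.Γ n B x ≤
          (if x ∈ run then (b.q n k).eps * (ww V.e₀ T' x / ww V.e₀ T₀ x) else (b.q n k).rho) +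
            b.nn n k * Psi V.Γ n (P ∪ V.Γ.blk n B) x
        rw [hPsi, mul_add]
        by_cases hr : x ∈ run
        · rw [if_pos hr] at x2 ⊢
          have h1 := mul_le_mul_of_nonneg_right x2 hr0
          have h2 : (b.q n k).eps * (ww V.e₀ T x / ww V.e₀ T₀ x) *
              (ww V.e₀ T' x / ww V.e₀ T x) = (b.q n k).eps * (ww V.e₀ T' x / ww V.e₀ T₀ x) := by
            have := (hw x hxA).ne'
            have := (hw0 x hxA).ne'
            field_simp
          have h3 : b.nn n k * Psi V.Γ n P x * (ww V.e₀ T' x / ww V.e₀ T x) ≤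
              b.nn n k * Psi V.Γ n P x :=
            mul_le_of_le_one_right (mul_nonneg i4 (psi_nonneg _ _ _ _)) hr1
          rw [add_mul, h2] at h1
          linarith
        · rw [if_neg hr] at x2 ⊢
          have h1 : ww V.e₀ T' x / ww V.e₀ T x = 1 := by
            rw [hwwe x hr]
            exact div_self (hw x hxA).ne'
          rw [h1, mul_one]
          linarith
      · have := mul_nonneg x3 hr0
        linarith
      · show εu x * (ww V.e₀ T' x / ww V.e₀ T x) + b.nn n k * om V.Γ n B x ≤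
          V.u₀ + ((b.q n k).rho + b.nn n k * Psi V.Γ n (P ∪ V.Γ.blk n B) x)
        rw [hPsi, mul_add]
        have h1 : εu x * (ww V.e₀ T' x / ww V.e₀ T x) ≤ εu x := mul_le_of_le_one_right x3 hr1
        linarith
    · intro e
      obtain ⟨e1, e2, e3⟩ := he e
      have hom := mul_nonneg i4 (om_pos V.Γ n B (sT e)).le
      dsimp only
      rw [hPsi]
      refine ⟨?_, ?_, ?_⟩
      · show _ ≤ bl e - V.D₀ * (b.nn n k * om V.Γ n B (sT e))
        linarith
      · show _ ≤ bu e + V.D₁ * (b.nn n k * om V.Γ n B (sT e))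
        have := mul_nonneg hN.D.2 hom
        linarith
      · show bu e + V.D₁ * (b.nn n k * om V.Γ n B (sT e)) ≤ _
        linarith

/-- the alive sites inside a stage -/
theorem Md.al {V : Env d M} {b : Bud} {n k : ℕ} {T₀ T : Cfg (Tor d M)}
    {run₀ run P : Finset (Tor d M)} (hM : Md V b n k T₀ run₀ P T run) (x : Tor d M)
    (hx : x ∈ Al T) : x ∈ Al T₀ := by
  rw [mem_Al] at hx ⊢
  rcases hM.clk x with h | h
  · rwa [h] at hx
  · exact mem_Al.1 (hM.st0.alv h.1)

/-- THE END OF A STAGE, before the regauge -/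
theorem fia {V : Env d M} {b : Bud} {n k : ℕ} (hN : Nm V b n k) {T₀ T : Cfg (Tor d M)}
    {run₀ run : Finset (Tor d M)} (hCp : ∀ x, Psi V.Γ n Finset.univ x ≤ V.Cp)
    (hF : Fc V.Γ V.kk V.cl V.Dn n k Finset.univ T run) (hcl0 : 0 < V.cl (k + 1))
    (hM : Md V b n k T₀ run₀ Finset.univ T run) {q' : Num} {r : ℝ}
    (hr : ∀ g, V.c₀ ≤ g → (V.e₀ + V.cl (k + 1) * g) ≤ r * (V.e₀ + V.cl k * g))
    (h1 : (b.q n k).del + b.inc n k * V.Cp ≤ q'.del)
    (h2 : (b.q n k).mis + b.inc n k * V.Cp ≤ q'.mis)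
    (h3 : (b.q n k).lam * (1 + b.inL n k * V.Cp) ≤ q'.lam)
    (h4 : b.thm n k + b.inY n k * V.Cp ≤ q'.tht)
    (h5 : (b.q n k).eps * r + b.nn n k * V.Cp ≤ q'.eps)
    (h6 : (b.q n k).rho + b.nn n k * V.Cp ≤ q'.rho) :
    StN V q' (V.cl (k + 1)) T run := by
  obtain ⟨hth, hth1⟩ := hN.th
  obtain ⟨i1, i2, i3, i4⟩ := hN.inc
  obtain ⟨q1, q2, q3⟩ := hN.q
  have hgg0 : gg T = gg T₀ := by
    unfold gg
    rw [hM.mb]
  have hAl0 := Md.al hM
  have hruns : ∀ x ∈ run, T.s x = V.cl (k + 1) := fun x hx => by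
    have := hF.runs x hx
    rwa [if_pos (Finset.mem_univ x)] at this
  have hG0 := hM.st0.gau
  have hi1 := fun x => mul_le_mul_of_nonneg_left (hCp x) i1
  have hi2 := fun x => mul_le_mul_of_nonneg_left (hCp x) i2
  have hi3 := fun x => mul_le_mul_of_nonneg_left (hCp x) i3
  have hi4 := fun x => mul_le_mul_of_nonneg_left (hCp x) i4
  have hCp0 : 0 ≤ V.Cp := (psi_nonneg V.Γ n Finset.univ 0).trans (hCp 0)
  have hgpos : ∀ x ∈ Al T, 0 < gg T x := fun x hx => by
    rw [hgg0]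
    exact lt_of_lt_of_le hN.c0 (hG0 x (hAl0 x hx)).1
  have hralv : run ⊆ Al T := fun x hx => by
    rw [mem_Al, hruns x hx]
    exact hcl0
  refine ⟨?_, hralv, ?_, ?_, ?_, ?_, ?_⟩
  · intro x hx
    obtain ⟨g1, g2, g3⟩ := hG0 x (hAl0 x hx)
    unfold gg at g1 ⊢
    rw [hM.mb]
    have := mul_nonneg i1 hCp0
    exact ⟨g1, g2, by linarith⟩
  · intro x hx
    have hxA := hralv hx
    have g1 := hM.st0.mis x (hM.sub hx)
    have g2 := hM.ent x hxA x hxA
    have g3 := norm_add_le (net V.E V.e₀ T x x - net V.E V.e₀ T₀ x x)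
      (net V.E V.e₀ T₀ x x - T₀.mb x)
    rw [sub_add_sub_cancel] at g3
    rw [hM.mb]
    linarith [hi1 x]
  · intro x hx y hy
    have g1 := hM.st0.ent x (hAl0 x hx) y (hAl0 y hy)
    have g2 := hM.ent x hx y hy
    have g3 := norm_add_le (net V.E V.e₀ T x y - net V.E V.e₀ T₀ x y)
      (net V.E V.e₀ T₀ x y - V.G₀ x y)
    rw [sub_add_sub_cancel] at g3
    linarith [hi1 x]
  · intro x hx
    refine (hM.lar x hx).trans (le_trans ?_ h3)
    exact mul_le_mul_of_nonneg_left (by linarith [hi2 x]) q3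
  · intro a ha
    refine (hM.yin a ha).trans (mul_le_mul_of_nonneg_right ?_ (hgpos a (hralv ha)).le)
    linarith [hi3 a]
  · obtain ⟨εl, εu, bl, bu, hFm, hx, he⟩ := hM.frm
    dsimp only at hx he
    refine ⟨εl, εu, bl, bu, hFm, ?_, ?_⟩
    · intro x hxA
      obtain ⟨x1, x2, x3, x4⟩ := hx x hxA
      refine ⟨x1, ?_, x3, ?_⟩
      · show εl x ≤ if x ∈ run then q'.eps else q'.rho
        by_cases hxr : x ∈ run
        · rw [if_pos hxr] at x2 ⊢
          refine x2.trans (le_trans ?_ h5)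
          have g1 : ww V.e₀ T x / ww V.e₀ T₀ x ≤ r := by
            have hc : V.c₀ ≤ gg T x := by
              rw [hgg0]
              exact (hG0 x (hAl0 x hxA)).1
            have hgp := hgpos x hxA
            have hs0 : T₀.s x = V.cl k := by
              have := hM.fc0.runs x (hM.sub hxr)
              rwa [if_neg (Finset.notMem_empty x)] at this
            have e1 : ww V.e₀ T x = (V.e₀ + V.cl (k + 1) * gg T x) * gg T x := by
              unfold ww kap
              rw [hruns x hxr]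
              rfl
            have e2 : ww V.e₀ T₀ x = (V.e₀ + V.cl k * gg T x) * gg T x := by
              unfold ww kap
              rw [hs0, hgg0]
              rfl
            have hp : 0 < V.e₀ + V.cl k * gg T x := by
              have := hN.e0
              have := NNReal.coe_nonneg (V.cl k)
              positivity
            rw [e1, e2, mul_div_mul_right _ _ hgp.ne', div_le_iff₀ hp]
            exact hr _ hc
          have g2 := mul_le_mul_of_nonneg_left g1 q1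
          linarith [hi4 x]
        · rw [if_neg hxr] at x2 ⊢
          linarith [hi4 x]
      · linarith [hi4 x]
    · intro e
      obtain ⟨e1, e2, e3⟩ := he e
      have g1 : (b.q n k).rho + b.nn n k * Psi V.Γ n Finset.univ (sT e) ≤ q'.rho := by
        linarith [hi4 (sT e)]
      refine ⟨?_, e2, ?_⟩
      · exact (mul_le_mul_of_nonneg_left (by linarith) hN.D.1).trans e1
      · exact e3.trans (mul_le_mul_of_nonneg_left (by linarith) hN.D.2)

/-- the alive sites in the release phase -/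
theorem Rl.al {V : Env d M} {b : Bud} {n : ℕ} {T₀ T : Cfg (Tor d M)}
    {run₀ run P : Finset (Tor d M)} (hM : Rl V b n T₀ run₀ P T run) (x : Tor d M)
    (hx : x ∈ Al T) : x ∈ Al T₀ := by
  rw [mem_Al] at hx ⊢
  rcases hM.chg x with h | h
  · rwa [h.2] at hx
  · exact h.2.1

/-- THE END OF THE RELEASE PHASE, before the regauge -/
theorem rfa {V : Env d M} {b : Bud} {n : ℕ} (hc0 : 0 < V.c₀) (hD : 0 ≤ V.D₀ ∧ 0 ≤ V.D₁)
    (hb : 0 ≤ b.icR n ∧ 0 ≤ b.lR n ∧ 0 ≤ b.yR n ∧ 0 ≤ b.nR n) (hlam : 0 ≤ (b.q n (V.kk (n + 1))).lam)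
    {T₀ T : Cfg (Tor d M)} {run₀ run P : Finset (Tor d M)}
    (hΦ : ∀ x, Phi V.Γ (b.tau n) n P x ≤ 2) (hM : Rl V b n T₀ run₀ P T run) {q' : Num}
    (h1 : (b.q n (V.kk (n + 1))).del + 2 * b.icR n ≤ q'.del)
    (h2 : (b.q n (V.kk (n + 1))).mis + 2 * b.icR n ≤ q'.mis)
    (h3 : (b.q n (V.kk (n + 1))).lam * (1 + 2 * b.lR n) ≤ q'.lam)
    (h4 : (b.q n (V.kk (n + 1))).tht + 2 * b.yR n ≤ q'.tht)
    (h5 : (b.q n (V.kk (n + 1))).eps + 2 * b.nR n ≤ q'.eps)
    (h6 : (b.q n (V.kk (n + 1))).rho + 2 * b.nR n ≤ q'.rho) :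
    StN V q' (V.cl (V.kk (n + 1))) T run := by
  obtain ⟨i1, i2, i3, i4⟩ := hb
  have hgg0 : gg T = gg T₀ := by
    unfold gg
    rw [hM.mb]
  have hAl0 := Rl.al hM
  have hG0 := hM.st0.gau
  have hi1 : ∀ x, b.icR n * Phi V.Γ (b.tau n) n P x ≤ 2 * b.icR n := fun x => by
    have := mul_le_mul_of_nonneg_left (hΦ x) i1
    linarith
  have hi2 : ∀ x, b.lR n * Phi V.Γ (b.tau n) n P x ≤ 2 * b.lR n := fun x => by
    have := mul_le_mul_of_nonneg_left (hΦ x) i2
    linarith
  have hi3 : ∀ x, b.yR n * Phi V.Γ (b.tau n) n P x ≤ 2 * b.yR n := fun x => by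
    have := mul_le_mul_of_nonneg_left (hΦ x) i3
    linarith
  have hi4 : ∀ x, b.nR n * Phi V.Γ (b.tau n) n P x ≤ 2 * b.nR n := fun x => by
    have := mul_le_mul_of_nonneg_left (hΦ x) i4
    linarith
  have hgpos : ∀ x ∈ Al T, 0 < gg T x := fun x hx => by
    rw [hgg0]
    exact lt_of_lt_of_le hc0 (hG0 x (hAl0 x hx)).1
  have hralv := hM.sub.2
  refine ⟨?_, hralv, ?_, ?_, ?_, ?_, ?_⟩
  · intro x hx
    obtain ⟨g1, g2, g3⟩ := hG0 x (hAl0 x hx)
    unfold gg at g1 ⊢
    rw [hM.mb]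
    exact ⟨g1, g2, by linarith⟩
  · intro x hx
    have hxA := hralv hx
    have g1 := hM.st0.mis x (hM.sub.1 hx)
    have g2 := hM.ent x hxA x hxA
    have g3 := norm_add_le (net V.E V.e₀ T x x - net V.E V.e₀ T₀ x x)
      (net V.E V.e₀ T₀ x x - T₀.mb x)
    rw [sub_add_sub_cancel] at g3
    rw [hM.mb]
    linarith [hi1 x]
  · intro x hx y hy
    have g1 := hM.st0.ent x (hAl0 x hx) y (hAl0 y hy)
    have g2 := hM.ent x hx y hy
    have g3 := norm_add_le (net V.E V.e₀ T x y - net V.E V.e₀ T₀ x y)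
      (net V.E V.e₀ T₀ x y - V.G₀ x y)
    rw [sub_add_sub_cancel] at g3
    linarith [hi1 x]
  · intro x hx
    refine (hM.lar x hx).trans (le_trans ?_ h3)
    exact mul_le_mul_of_nonneg_left (by linarith [hi2 x]) hlam
  · intro a ha
    refine (hM.yin a ha).trans (mul_le_mul_of_nonneg_right ?_ (hgpos a (hralv ha)).le)
    linarith [hi3 a]
  · obtain ⟨εl, εu, bl, bu, hFm, hx, he⟩ := hM.frm
    dsimp only at hx he
    refine ⟨εl, εu, bl, bu, hFm, ?_, ?_⟩
    · intro x hxA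
      obtain ⟨x1, x2, x3, x4⟩ := hx x hxA
      refine ⟨x1, ?_, x3, ?_⟩
      · show εl x ≤ if x ∈ run then q'.eps else q'.rho
        by_cases hxr : x ∈ run
        · rw [if_pos hxr] at x2 ⊢
          linarith [hi4 x]
        · rw [if_neg hxr] at x2 ⊢
          linarith [hi4 x]
      · linarith [hi4 x]
    · intro e
      obtain ⟨e1, e2, e3⟩ := he e
      have g1 : (b.q n (V.kk (n + 1))).rho + b.nR n * Phi V.Γ (b.tau n) n P (sT e) ≤ q'.rho := by
        linarith [hi4 (sT e)]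
      refine ⟨?_, e2, ?_⟩
      · exact (mul_le_mul_of_nonneg_left (by linarith) hD.1).trans e1
      · exact e3.trans (mul_le_mul_of_nonneg_left (by linarith) hD.2)

end conf

end Pool.Agent.AHH.H28
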