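import Pool.Agent.Helper28_AHH.Kil
import Pool.Agent.Helper34_KL2.Kil2
import Pool.Agent.Helper41_AHH.KN1
import Pool.Agent.Helper41_AHH.KN2
import Pool.Agent.Helper30_AHH.Dat
import Pool.Agent.Helper61_AHH.KN3
import Pool.Agent.Helper61_AHH.Zn

/-!
# AND2B (helper28): THE FIELD `kil`
-/

set_option autoImplicit false
set_option linter.unusedSectionVars false

open scoped BigOperators NNReal ENNReal

noncomputable section

namespace Pool.Agent.AND2B.H28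

open Pool.Agent.AND.Num
open Pool.Agent.ANP (Cfg Att)
open Pool.Agent.AHH (toE bud Rl)
open Pool.Agent.AHH.H30 (clu Side ev_side cards cx Kz card_Q)
open Pool.Agent.KL2

/-- THE SECOND HALF -/
theorem kilST : KilSStmt := by
  intro d a c C hd ha hc hc' hC
  have hd0 : 0 < d := by omega
  have e1 := AHH.H61.ev_good (d := d) (a := a) (es := AHH.es) (c := c) (C := C)
  have e2 := AHH.H61.ev_c1 (d := d) (a := a) (es := AHH.es) (c := c) (C := C) (1 / 1000)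
    (by norm_num)
  have e3 := AHH.H61.ev_thr d a c C 0 (1 / (8 * C)) (by positivity)
  have e4 := ev_side d a c C hc hC
  have e5 := AHH.H61.ev_small (d := d) (a := a) (es := AHH.es) (c := c) (C := C)
    (fun th c₁ _ _ _ s => ∀ (n : ℕ) (Dn : ℕ → ℕ) (μ k clu kn : ℕ) (e₀ lam J mm MM hK : ℝ),
      AHH.H41.Dat d c₁ (Kz d th) s n Dn μ k clu kn e₀ lam J mm MM hK →
      KN1 (s * (c / 2)) (c / 2) lam (s ^ (1 / 10 : ℝ)) (s ^ (1 / 200 : ℝ)) (s ^ (1 / 100 : ℝ))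
        (s ^ (5 * (d : ℝ))) (2 * C + 3)
        (J + 4 / (s * (c / 2)) *
          Real.exp (-(s * (c / 2) / (8 * d) / 4 * ((2 ^ (k + 2) : ℕ) : ℝ))))
        (mm + 8 / (s * (c / 2)) *
          Real.exp (-(s * (c / 2) / (8 * d) / 4 * ((2 ^ (k + 2) : ℕ) : ℝ))))
        (8 / (s * (c / 2))) (s * (c / 2) / (8 * d) / 4) (s ^ (10 : ℝ)) (2 ^ (k + 2)))
    fun th c₁ _ _ _ _ _ _ _ => AHH.H41.kn1 d (c / 2) (2 * C + 3) c₁ (Kz d th) hd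
      (by positivity) (by positivity)
  have e6 := AHH.H61.ev_small (d := d) (a := a) (es := AHH.es) (c := c) (C := C)
    (fun th c₁ _ _ _ s => c₁ ≤ 1 / 1000 → ∀ (n : ℕ) (Dn : ℕ → ℕ) (μ k clu kn : ℕ)
      (e₀ lam J mm MM hK : ℝ),
      AHH.H41.Dat d c₁ (Kz d th) s n Dn μ k clu kn e₀ lam J mm MM hK →
      ∀ nQ nK : ℝ, 0 ≤ nQ → nQ ≤ s ^ (-(1 / 1000) : ℝ) → 0 ≤ nK → nK ≤ s ^ (-(6 / 5) : ℝ) →
      KN2 d n Dn μ k ⌊s ^ (-(8 / 5) : ℝ)⌋₊ ⌊s ^ (-(8 / 5) : ℝ)⌋₊ (clu + kn)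
        s (c / 2) (2 * C) e₀ lam (2 * C + 3) (s * (c / 2)) (s * (c / 2) / (8 * d))
        (s * (2 * C + 1)) nQ nK
        (16 * Real.exp (2 * (s * (c / 2) / (8 * d)) * Zc d n fun j => 2 * Dn j))
        (Real.exp (-(s ^ (-(1 / 2) : ℝ)))) mm MM hK
        (s ^ (1033 / 1000 : ℝ)) (s ^ (33 / 1000 : ℝ)) (s ^ (-(1 / 5) : ℝ))
        (s ^ (1024 / 1000 : ℝ)) (s ^ (24 / 1000 : ℝ)) (s ^ (-(201 / 1000) : ℝ)))
    fun th c₁ _ _ _ _ _ _ _ => by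
      by_cases h : c₁ ≤ 1 / 1000
      · exact (AHH.H41.kn2 d (c / 2) (2 * C) (2 * C + 3) c₁ (Kz d th) hd (by positivity)
          (by positivity) (by positivity) h).mono fun s _ h _ => h
      · exact (small_le 1 one_pos).mono fun s _ _ h' => absurd h' h
  have e7 := AHH.H61.ev_small (d := d) (a := a) (es := AHH.es) (c := c) (C := C)
    (fun _ _ _ _ _ s => ∀ (w rho : ℝ) (k clu kn rk : ℕ), s ≤ w → w ≤ 1 → 0 ≤ rho →
      rho ≤ 1 / 8 → rho ≤ 1 / (8 * C) → (clu : ℝ) ≤ s ^ (-(1 / 1000) : ℝ) →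
      (kn : ℝ) ≤ s ^ (-(6 / 5) : ℝ) → (rk : ℝ) ≤ s ^ (-(8 / 5) : ℝ) →
      s ^ (-3 : ℝ) ≤ ((2 ^ (k + 2) : ℕ) : ℝ) → ∃ Jc Jr : ℕ,
        KN3 d (clu + kn) Jc Jr (2 ^ (k + 2)) rk (c / 2) (1 - 1 / (2 * C))
          (c * w ^ (8 * AHH.es - 1)) (4 * C ^ 3 / w) rho (s ^ (1 / 100 : ℝ))
          (s ^ (5 * (d : ℝ)))
          (s * (c / 2)) (s * (c / 2) / (8 * d)) (Real.exp (-(s ^ (-(1 / 2) : ℝ)))) clu
          (s ^ (1033 / 1000 : ℝ)) (s ^ (33 / 1000 : ℝ)) (s ^ (-(1 / 5) : ℝ))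
          (s ^ (1024 / 1000 : ℝ)) (s ^ (24 / 1000 : ℝ)) (s ^ (-(201 / 1000) : ℝ))
          (s ^ (33 / 2000 : ℝ)) (s ^ (31 / 2000 : ℝ)))
    fun _ _ _ _ _ _ _ _ _ => (AHH.H61.kn3 d c C hd hc hc' hC).mono
      fun s _ h w rho k clu kn rk h1 h2 h3 h4 h5 h6 h7 h8 h9 =>
        h w rho clu (2 ^ (k + 2)) clu kn rk h1 h2 h3 h4 h5 (Nat.cast_nonneg _) h6 h6 h7 h8 h9
  refine ((((((e1.and e2).and e3).and e4).and e5).and e6).and e7).imp ?_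
  rintro V ⟨⟨⟨⟨⟨⟨hG, hc₁⟩, e3⟩, e4⟩, e5⟩, e6⟩, e7⟩ n T₀ T run₀ run P Q v T' hK hF -
  have hV : V.Pre a := hG.toPre
  obtain ⟨k, hS⟩ := e4 n hK.n1 hK.nN
  obtain ⟨c1, c2, c3, c4⟩ := cards hS hK hF
  have hs := hS.s0
  have hs1 := hS.s1
  have hD := hS.dat (V.sg (n + 1) ^ (3 / 25 : ℝ)) (V.sg (n + 1) ^ (1 / 30 : ℝ))
    (V.sg (n + 1) ^ (-(1 / 5) : ℝ)) (V.sg (n + 1) ^ (1 / 10 : ℝ)) (by positivity) le_rfl
    (by positivity) le_rfl le_rfl (by positivity) le_rfl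
  have hρ : V.G.ρ n = 2 ^ (k + 2) := by
    show 2 ^ V.r n = _
    rw [hS.hr]
  have hN1 := e5 (V.sg (n + 1)) hs (AHH.H61.sg_le hV _) n V.Dn V.μ k (clu V n) (V.Kn n) V.e₀
    ((bud V).q n (V.kk (n + 1))).lam _ _ _ _ hD
  have hcl : (clu V n : ℝ) ≤ V.sg (n + 1) ^ (-(1 / 1000) : ℝ) :=
    hS.hclu.trans (Real.rpow_le_rpow_of_exponent_ge hs (by linarith) (by linarith))
  have hN2 := e6 (V.sg (n + 1)) hs (AHH.H61.sg_le hV _) hc₁ n V.Dn V.μ k (clu V n) (V.Kn n)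
    V.e₀ ((bud V).q n (V.kk (n + 1))).lam _ _ _ _ hD (clu V n)
    (V.sg (n + 1) ^ (-(6 / 5) : ℝ)) (Nat.cast_nonneg _) hcl (by positivity) le_rfl
  have hrho := (e3 n (V.kk (n + 1))).2.1
  rw [zero_mul, add_zero] at hrho
  have hrho0 : 0 ≤ (AHH.qq V n (V.kk (n + 1))).rho := by
    refine le_trans ?_ (AHH.gr_bd V hV.th.2.le (p := AHH.ka V / 4)
      (by have := AHH.H61.ka_pos (V := V); positivity) n (V.kk (n + 1))).1
    positivity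
  have hrho8 : (AHH.qq V n (V.kk (n + 1))).rho ≤ 1 / 8 := by
    refine hrho.trans ?_
    rw [one_div_le_one_div (by positivity) (by norm_num)]
    linarith
  have hdr : V.sg (n + 1) ^ (-3 : ℝ) ≤ ((2 ^ (k + 2) : ℕ) : ℝ) := by
    push_cast
    exact hD.rho
  obtain ⟨Jc, Jr, hN3⟩ := e7 (V.sg (n + 1)) hs (AHH.H61.sg_le hV _) V.w
    ((bud V).q n (V.kk (n + 1))).rho k (clu V n) (V.Kn n) (rkn (V.sg (n + 1)))
    (AHH.H61.sg_le hV _) hS.w1 hrho0 hrho8 hrho hcl hS.hkn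
    (Nat.floor_le (by positivity)) hdr
  rw [← hρ] at hN1 hN3
  exact Cx.kil2 (V := toE V c C) (b := bud V) hd (cx hV hG.e0 hc hK hF) (k := k)
    (t := rkn (V.sg (n + 1))) (nS := clu V n + V.Kn n) (Jc := Jc) (Jr := Jr) hN1 hN2 hN3
    (by positivity) hS.hr hS.eps c1 c2 (by exact_mod_cast card_Q hK) c4 hS.sum hS.hZ hS.hCg hS.icR hS.lR hS.yR hS.phi

/-- THE FIELD `kil` -/
theorem kilT : AHH.KilF := kilF kilST

end Pool.Agent.AND2B.H28
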