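import Pool.Agent.AHH.Z
import Pool.Agent.Helper61_AND.Num

/-!
# AND2B: numbers for the field kil (helper28): the number of dead sites, the radius of the kills
-/

set_option autoImplicit false
set_option linter.unusedSectionVars false

open scoped BigOperators NNReal

noncomputable section

namespace Pool.Agent.AND2B.H28

open Pool.Agent.AND.Num
open Pool.Agent.AND2B

variable {d : ℕ}

theorem sg_pos {a : ℝ} {V : Env d} (hV : V.Pre a) (n : ℕ) : 0 < V.sg n := by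
  have h1 : 0 < V.cl (V.kk n) := AHH.cl_pos V hV.w (lt_of_lt_of_le (by norm_num) hV.th.1) _
  exact_mod_cast h1

/-- the clocks of consecutive super-stages -/
theorem sg_geo {a : ℝ} {V : Env d} (hV : V.Pre a) (i j : ℕ) :
    V.sg (i + j) ≤ (V.th : ℝ) ^ j * V.sg i := by
  induction j with
  | zero => simp
  | succ j ih =>
    have h1 : V.kk (i + j) + 1 ≤ V.kk (i + (j + 1)) := hV.sc.km (i + j)
    have h2 : V.cl (V.kk (i + (j + 1))) ≤ V.cl (V.kk (i + j) + 1) :=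
      AHH.cl_anti V hV.th.2.le h1
    have h3 : V.sg (i + (j + 1)) ≤ (V.th : ℝ) * V.sg (i + j) := by
      rw [AHH.cl_succ] at h2
      exact_mod_cast h2
    calc V.sg (i + (j + 1)) ≤ (V.th : ℝ) * V.sg (i + j) := h3
      _ ≤ (V.th : ℝ) * ((V.th : ℝ) ^ j * V.sg i) :=
        mul_le_mul_of_nonneg_left ih (NNReal.coe_nonneg _)
      _ = _ := by ring

/-- the constant in the number of dead sites -/
def Kd (d : ℕ) (th : ℝ≥0) : ℝ := 3 ^ d / (1 - (th : ℝ) ^ (5 / 4 : ℝ))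

theorem th_rp {th : ℝ≥0} (h0 : 0 < th) (h1 : th < 1) :
    0 < (th : ℝ) ^ (5 / 4 : ℝ) ∧ (th : ℝ) ^ (5 / 4 : ℝ) < 1 := by
  have h0' : (0 : ℝ) < th := by exact_mod_cast h0
  exact ⟨Real.rpow_pos_of_pos h0' _, Real.rpow_lt_one h0'.le (by exact_mod_cast h1) (by norm_num)⟩

theorem Kd_nonneg {d : ℕ} {th : ℝ≥0} (h0 : 0 < th) (h1 : th < 1) : 0 ≤ Kd d th := by
  obtain ⟨h2, h3⟩ := th_rp h0 h1
  unfold Kd
  exact div_nonneg (by positivity) (by linarith)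

/-- THE NUMBER OF DEAD SITES of the levels up to `n` -/
theorem sum_Dn {a : ℝ} {V : Env d} (hV : V.Pre a) {n : ℕ} (hn : n ≤ V.N) :
    ∑ i ∈ Finset.range (n + 1), (3 ^ d * V.Dn i : ℝ) ≤
      Kd d V.th * V.sg (n + 1) ^ (-(5 / 4 : ℝ)) := by
  have hth0 : (0 : ℝ≥0) < V.th := lt_of_lt_of_le (by norm_num) hV.th.1
  obtain ⟨r0, r1⟩ := th_rp hth0 hV.th.2
  set ρ : ℝ := (V.th : ℝ) ^ (5 / 4 : ℝ) with hρ
  have hs := sg_pos hV (n + 1)
  have hthr : (0 : ℝ) < V.th := by exact_mod_cast hth0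
  have h1 : ∀ i ∈ Finset.range (n + 1), (3 ^ d * V.Dn i : ℝ) ≤
      3 ^ d * (ρ ^ (n - i) * V.sg (n + 1) ^ (-(5 / 4 : ℝ))) := by
    intro i hi
    rw [Finset.mem_range] at hi
    have h2 := hV.sc.dl i (by omega)
    refine mul_le_mul_of_nonneg_left (h2.trans ?_) (by positivity)
    have h3 : V.sg (i + 1 + (n - i)) ≤ (V.th : ℝ) ^ (n - i) * V.sg (i + 1) :=
      sg_geo hV (i + 1) (n - i)
    have e1 : i + 1 + (n - i) = n + 1 := by omega
    rw [e1] at h3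
    have hpi := sg_pos hV (i + 1)
    have h4 : ((V.th : ℝ) ^ (n - i) * V.sg (i + 1)) ^ (-(5 / 4 : ℝ)) ≤
        V.sg (n + 1) ^ (-(5 / 4 : ℝ)) :=
      Real.rpow_le_rpow_of_nonpos hs h3 (by norm_num)
    rw [Real.mul_rpow (by positivity) hpi.le] at h4
    have h5 : ρ ^ (n - i) * ((V.th : ℝ) ^ (n - i)) ^ (-(5 / 4 : ℝ)) = 1 := by
      rw [hρ, ← Real.rpow_natCast ((V.th : ℝ) ^ (5 / 4 : ℝ)), ← Real.rpow_mul hthr.le,
        ← Real.rpow_natCast (V.th : ℝ), ← Real.rpow_mul hthr.le, ← Real.rpow_add hthr]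
      ring_nf
      exact Real.rpow_zero _
    have h6 := mul_le_mul_of_nonneg_left h4 (pow_nonneg r0.le (n - i))
    have h7 : ρ ^ (n - i) * (((V.th : ℝ) ^ (n - i)) ^ (-(5 / 4 : ℝ)) *
        V.sg (i + 1) ^ (-(5 / 4 : ℝ))) = V.sg (i + 1) ^ (-(5 / 4 : ℝ)) := by
      rw [← mul_assoc, h5, one_mul]
    rw [h7] at h6
    exact h6
  refine (Finset.sum_le_sum h1).trans ?_
  rw [← Finset.mul_sum, ← Finset.sum_mul]
  have h8 : ∑ i ∈ Finset.range (n + 1), ρ ^ (n - i) ≤ 1 / (1 - ρ) := by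
    have h9 : ∑ i ∈ Finset.range (n + 1), ρ ^ (n - i) = ∑ i ∈ Finset.range (n + 1), ρ ^ i := by
      rw [← Finset.sum_range_reflect]
      refine Finset.sum_congr rfl fun i hi => ?_
      rw [Finset.mem_range] at hi
      congr 1
      omega
    rw [h9, geom_sum_eq r1.ne, div_le_iff_of_neg (by linarith)]
    have h11 : 0 ≤ ρ ^ (n + 1) := pow_nonneg r0.le _
    have h12 : 1 / (1 - ρ) * (ρ - 1) = -1 := by
      have : 1 - ρ ≠ 0 := by linarith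
      field_simp
      ring
    rw [h12]
    linarith
  have h10 : 0 ≤ V.sg (n + 1) ^ (-(5 / 4 : ℝ)) := by positivity
  calc (3 : ℝ) ^ d * ((∑ i ∈ Finset.range (n + 1), ρ ^ (n - i)) *
        V.sg (n + 1) ^ (-(5 / 4 : ℝ)))
      ≤ 3 ^ d * (1 / (1 - ρ) * V.sg (n + 1) ^ (-(5 / 4 : ℝ))) := by gcongr
    _ = _ := by
      unfold Kd
      rw [← hρ]
      ring

/-! ### the scale of the attempt -/

/-- `q = s ^ (1 / 2000)` -/
def qn (s : ℝ) : ℝ := s ^ (1 / 2000 : ℝ)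

theorem qn_pos {s : ℝ} (hs : 0 < s) : 0 < qn s := Real.rpow_pos_of_pos hs _

theorem qn_pow {s : ℝ} (hs : 0 < s) (m : ℕ) : qn s ^ m = s ^ ((m : ℝ) / 2000) := by
  unfold qn
  rw [← Real.rpow_natCast, ← Real.rpow_mul hs.le]
  congr 1
  ring

theorem qn_inv_pow {s : ℝ} (hs : 0 < s) (m : ℕ) : (qn s)⁻¹ ^ m = s ^ (-((m : ℝ) / 2000)) := by
  rw [inv_pow, qn_pow hs, Real.rpow_neg hs.le]

/-- the radius of the kills -/
def rkn (s : ℝ) : ℕ := ⌊s ^ (-(8 / 5 : ℝ))⌋₊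

/-- the number of additional dead sites: kills and cluster -/
theorem small_far (d : ℕ) (hd : 0 < d) (c K : ℝ) (hc : 0 < c) :
    Small fun s => ∀ (D z : ℝ), D ≤ K * s ^ (-(5 / 4 : ℝ)) →
      z ≤ s ^ (-(113 / 100 : ℝ)) + s ^ (-(1 : ℝ)) →
      s ^ (-(1 / 2 : ℝ)) ≤
        c * s / 2 / (4 * d) * ((rkn s : ℝ) / 2 - (1 + 2 * (D + 3 ^ d * z)) - 1) := by
  have hd' : (0 : ℝ) < d := by exact_mod_cast hd
  have h1 := small_pow' (3 + 1) (1 / 8) 0 (-(8 / 5 : ℝ)) (by norm_num) (by norm_num)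
  have h2 := small_pow' (2 * K) (1 / 16) (-(5 / 4 : ℝ)) (-(8 / 5 : ℝ)) (by norm_num) (by norm_num)
  have h3 := small_pow' (2 * 3 ^ d) (1 / 16) (-(113 / 100 : ℝ)) (-(8 / 5 : ℝ)) (by norm_num)
    (by norm_num)
  have h4 := small_pow' (2 * 3 ^ d) (1 / 16) (-(1 : ℝ)) (-(8 / 5 : ℝ)) (by norm_num) (by norm_num)
  have h5 := small_pow' 1 (c / 2 / (4 * d) / 16) (-(1 / 2 : ℝ)) (-(3 / 5 : ℝ)) (by positivity)
    (by norm_num)
  refine (((((h1.and h2).and h3).and h4).and h5).and Small.pos).mono ?_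
  rintro s hs ⟨⟨⟨⟨⟨h1, h2⟩, h3⟩, h4⟩, h5⟩, -⟩ D z hD hz
  set u : ℝ := s ^ (-(8 / 5 : ℝ)) with hu
  have hfl : u - 1 ≤ (rkn s : ℝ) := by
    unfold rkn
    have := Nat.lt_floor_add_one (s ^ (-(8 / 5 : ℝ)))
    linarith
  rw [Real.rpow_zero, mul_one] at h1
  have hz3 : (3 : ℝ) ^ d * z ≤ 3 ^ d * (s ^ (-(113 / 100 : ℝ)) + s ^ (-(1 : ℝ))) :=
    mul_le_mul_of_nonneg_left hz (by positivity)
  have h6 : u / 8 ≤ (rkn s : ℝ) / 2 - (1 + 2 * (D + 3 ^ d * z)) - 1 := by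
    nlinarith
  have hcc : 0 ≤ c * s / 2 / (4 * d) := by positivity
  have h7 := mul_le_mul_of_nonneg_left h6 hcc
  refine le_trans ?_ h7
  have h8 : s * u = s ^ (-(3 / 5 : ℝ)) := by
    rw [hu]
    nth_rewrite 1 [← Real.rpow_one s]
    rw [← Real.rpow_add hs]
    norm_num
  have h9 : c * s / 2 / (4 * d) * (u / 8) = c / 2 / (4 * d) / 8 * s ^ (-(3 / 5 : ℝ)) := by
    rw [← h8]
    ring
  rw [h9]
  have h10 : (0 : ℝ) ≤ s ^ (-(3 / 5 : ℝ)) := by positivity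
  have h11 : c / 2 / (4 * d) / 16 * s ^ (-(3 / 5 : ℝ)) ≤
      c / 2 / (4 * d) / 8 * s ^ (-(3 / 5 : ℝ)) := by
    refine mul_le_mul_of_nonneg_right ?_ h10
    have : 0 ≤ c / 2 / (4 * d) := by positivity
    linarith
  linarith

/-- the far sites are light -/
theorem far_small (d : ℕ) (hd : 0 < d) (c K : ℝ) (hc : 0 < c) :
    Small fun s => ∀ (D z : ℝ), D ≤ K * s ^ (-(5 / 4 : ℝ)) →
      z ≤ s ^ (-(113 / 100 : ℝ)) + s ^ (-(1 : ℝ)) →
      2 * Real.exp (-(c * s / 2 / (4 * d) * ((rkn s : ℝ) / 2 - (1 + 2 * (D + 3 ^ d * z)) - 1))) <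
        qn s ^ 2250 ∧
      2 / (c * s / 2) *
        Real.exp (-(c * s / 2 / (4 * d) * ((rkn s : ℝ) / 2 - (1 + 2 * (D + 3 ^ d * z)) - 1))) ≤
        qn s ^ 200 := by
  have h1 := small_far d hd c K hc
  have h2 := small_exp_pow 2 1 (1 / 2) 0 2 one_pos (by norm_num)
  have h3 := small_exp_pow (4 / c) 1 (1 / 2) 1 (1 / 10) one_pos (by norm_num)
  refine ((((h1.and h2).and h3).and (small_le (1 / 2) (by norm_num))).and Small.pos).mono ?_
  rintro s hs ⟨⟨⟨⟨h1, h2⟩, h3⟩, h4⟩, -⟩ D z hD hz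
  have h5 := h1 D z hD hz
  set t := c * s / 2 / (4 * d) * ((rkn s : ℝ) / 2 - (1 + 2 * (D + 3 ^ d * z)) - 1) with ht
  have h6 : Real.exp (-t) ≤ Real.exp (-(1 * s ^ (-(1 / 2 : ℝ)))) := by
    refine Real.exp_le_exp.2 ?_
    linarith
  rw [neg_zero, Real.rpow_zero, mul_one] at h2
  constructor
  · rw [qn_pow hs]
    refine lt_of_le_of_lt (le_trans (mul_le_mul_of_nonneg_left h6 (by norm_num)) h2) ?_
    refine Real.rpow_lt_rpow_of_exponent_gt hs (by linarith) ?_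
    norm_num
  · rw [qn_pow hs]
    have h7 : 2 / (c * s / 2) = 4 / c * s ^ (-(1 : ℝ)) := by
      rw [Real.rpow_neg_one]
      field_simp
      norm_num
    rw [h7]
    refine (mul_le_mul_of_nonneg_left h6 (by positivity)).trans (h3.trans (le_of_eq ?_))
    norm_num

end Pool.Agent.AND2B.H28
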