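import Pool.Agent.Helper28_AHH.KilP
import Pool.Agent.Helper76_AHH.KilB
import Pool.Agent.Helper38_AHH.KPhi

/-!
# AND2B, field kil (helper28): THE FIRST HALF

From the hypotheses of the field kil: an attempt reaches, with failure probability at most `p n`, a
configuration with `KL2.Fin1`.
-/

set_option autoImplicit false
set_option linter.unusedSectionVars false

open scoped BigOperators NNReal ENNReal

noncomputable section

namespace Pool.Agent.AND2B.H28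

open Pool.Agent.AND.Num
open Pool.Agent.ANP (Cfg Att)
open Pool.Agent.AHH (toE bud Rl Al gg)
open Pool.Agent.ATT.H76 (mkA In0)
open Pool.Agent.KL2 (Fin1)

variable {d : ℕ}

/-- the numbers -/
structure NumK (d : ℕ) (c C K : ℝ) (th : ℝ≥0) (s : ℝ) : Prop where
  le : s ≤ 1 / 3
  wC : s * (2 * C) ≤ 1 / 2
  far : FarN d c (Kd d th) s
  Kq : K * qn s ≤ 1
  mis : s ^ (1 / 8 : ℝ) + s ^ (1 / 10 : ℝ) * 2 ≤ qn s ^ 198 / 2
  del : 3 * s ^ (1 / 20 : ℝ) ≤ 1 / 2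
  icR : s ^ (1 / 10 : ℝ) * 2 ≤ 1 / 2
  lR : 1 + s ^ (1 / 200 : ℝ) * 2 ≤ 2
  kn : (qn s)⁻¹ ^ 2260 ≤ s ^ (-(6 / 5 : ℝ)) - 1
  mm : 4 * qn s ^ 80 ≤ s ^ (1 / 30 : ℝ)
  MM : 9 * (qn s)⁻¹ ^ 280 ≤ s ^ (-(1 / 5) : ℝ)

theorem numK (hd : 0 < d) (c C K : ℝ) (hc : 0 < c) (hC : 1 ≤ C) (hK : 1 ≤ K) (th : ℝ≥0) :
    Small (NumK d c C K th) := by
  have h1 := far_small d hd c (Kd d th) hc
  have h2 := small_le (1 / 3) (by norm_num)
  have h3 := small_le (1 / (4 * C)) (by positivity)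
  have h4 := small_pow' K 1 (1 / 2000) 0 one_pos (by norm_num)
  have h5 := small_pow' 1 (1 / 4) (1 / 8) (198 / 2000) (by norm_num) (by norm_num)
  have h6 := small_pow' 2 (1 / 4) (1 / 10) (198 / 2000) (by norm_num) (by norm_num)
  have h7 := small_pow' 3 (1 / 2) (1 / 20) 0 (by norm_num) (by norm_num)
  have h8 := small_pow' 2 (1 / 2) (1 / 10) 0 (by norm_num) (by norm_num)
  have h9 := small_pow' 2 1 (1 / 200) 0 (by norm_num) (by norm_num)
  have h10 := small_pow' 1 (1 / 2) (-(113 / 100)) (-(6 / 5)) (by norm_num) (by norm_num)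
  have h11 := small_pow' 1 (1 / 2) 0 (-(6 / 5)) (by norm_num) (by norm_num)
  have h12 := small_pow' 4 1 (80 / 2000) (1 / 30) (by norm_num) (by norm_num)
  have h13 := small_pow' 9 1 (-(280 / 2000)) (-(1 / 5)) (by norm_num) (by norm_num)
  refine ((((((((((((h1.and h2).and h3).and h4).and h5).and h6).and h7).and h8).and h9).and
    h10).and h11).and h12).and h13).mono ?_
  rintro s hs ⟨⟨⟨⟨⟨⟨⟨⟨⟨⟨⟨⟨h1, h2⟩, h3⟩, h4⟩, h5⟩, h6⟩, h7⟩, h8⟩, h9⟩, h10⟩, h11⟩, h12⟩, h13⟩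
  simp only [Real.rpow_zero, mul_one, one_mul] at h4 h5 h6 h7 h8 h9 h10 h11 h12 h13
  refine ⟨h2, ?_, h1, h4, ?_, h7, by linarith, by linarith, ?_, ?_, ?_⟩
  · rw [le_div_iff₀ (by positivity)] at h3
    linarith
  · rw [qn_pow hs]
    norm_num at h5 h6 ⊢
    linarith
  · rw [qn_inv_pow hs]
    norm_num at h10 h11 ⊢
    linarith
  · rw [qn_pow hs]
    norm_num at h12 ⊢
    linarith
  · rw [qn_inv_pow hs]
    norm_num at h13 ⊢
    linarith

/-- THE FIRST HALF -/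
theorem fhalf (hd : 0 < d) (a es c C : ℝ) (hc : 0 < c) (hc1 : c ≤ 1) (hC : 1 ≤ C) :
    Ev d a es c C fun V => ∀ (n : ℕ) (T₀ T : Cfg V.X) (run₀ run P Q : Finset V.X)
      (v : V.X → ℝ), KH V c C n T₀ run₀ P T run Q → ∀ Okf : Cfg V.X → Prop,
        (∀ T' : Cfg V.X, Fin1 (toE V c C) n T T' run Q v (rkn (V.sg (n + 1))) (V.Kn n)
          (V.sg (n + 1) ^ (3 / 25 : ℝ)) (V.sg (n + 1) ^ (1 / 30 : ℝ))
          (V.sg (n + 1) ^ (-(1 / 5) : ℝ)) (V.sg (n + 1) ^ (1 / 10 : ℝ)) → Okf T') →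
        Att (run ∩ V.G.nbh Q (V.G.ρ n)) Q v Okf T (ENNReal.ofReal (V.p n)) := by
  obtain ⟨K₀, hK₀, hatt⟩ := ATT.H76.attempt ATT.H38.phn_ ATT.H38.ata_ ATT.H38.net_ (c / 2) (2 * C)
    (4 * C) (DD d) (by positivity) (by positivity) (by linarith) (by unfold DD; omega)
  set K : ℝ := K₀ + 2000 + 100 / (c / 2) with hK
  have hK1 : 0 ≤ 100 / (c / 2) := by positivity
  have hN := AHH.H61.ev_small (d := d) (a := a) (es := es) (c := c) (C := C)
    (fun th _ _ _ _ s => NumK d c C K th s) fun th _ _ _ _ _ _ _ _ =>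
      numK hd c C K hc hC (by linarith) th
  have h1 := AHH.H61.ev_good (d := d) (a := a) (es := es) (c := c) (C := C)
  have h2 := AHH.H61.ev_be (d := d) (a := a) (es := es) (c := c) (C := C)
    (fun _ _ _ _ _ => 1 / 2000) fun _ _ _ _ _ _ _ _ _ => by norm_num
  have h3 := AHH.H61.ev_c1 (d := d) (a := a) (es := es) (c := c) (C := C) (1 / 1000)
    (by norm_num)
  have h4 := AHH.H61.ev_e0 (d := d) (a := a) (es := es) (c := c) (C := C)
    (fun V => V.sg (V.N + 1)) (fun V hV => AHH.H61.sg_pos hV _) (fun V e₀ m ζ => rfl)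
  have h5 := AHH.H38.ev_phi (d := d) (a := a) (e := es) (c := c) (C := C)
  refine (((((hN.and h1).and h2).and h3).and h4).and h5).imp ?_
  rintro V ⟨⟨⟨⟨⟨hN, hG⟩, hβ⟩, hc₁⟩, he⟩, hφ⟩ n T₀ T run₀ run P Q v h Okf hOk
  have hV : V.Pre a := hG.toPre
  have hs : 0 < sn V n := sg_pos hV (n + 1)
  have hNs : NumK d c C K V.th (sn V n) := hN _ hs (AHH.H61.sg_le hV _)
  have hNw : NumK d c C K V.th V.w := hN _ (AHH.H61.w_pos hV) le_rfl
  have hq := qn_pos hs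
  have hes : V.e₀ ≤ sn V n := he.trans (AHH.H61.sg_anti hV (by have := h.nN; omega))
  have hs3 := hNs.le
  have hw3 := hNw.le
  have hIn0 : In0 (Hm d (2 ^ V.μ) V.E) V.e₀ T (run ∩ V.G.nbh Q (V.G.ρ n)) Q
      (V.cl (V.kk (n + 1))) (qn (sn V n)) (c / 2) (2 * C) (4 * C) := by
    refine AHH.H76.in0_of_rl (toE V c C) (bud V) n T₀ T run₀ run P Q h.rl h.fc (qn (sn V n)) C 2
      (4 * C) hq ?_ ⟨hG.e0, ?_⟩ ?_ ?_ (AHH.H38.g0_le hG) (hφ n h.nN P) ?_ ?_ ?_ ?_ ?_ ?_ ?_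
      h.pen ?_
    · rw [qn_pow hs]
      norm_num
      rfl
    · rw [qn_pow hs]
      norm_num
      exact hes
    · show 0 < c / 2
      positivity
    · show V.e₀ + V.cl 0 * (2 * C) ≤ 1
      rw [AHH.cl_zero]
      have := hNw.wC
      linarith
    · show 0 ≤ V.sg (n + 1) ^ (1 / 10 : ℝ)
      positivity
    · show 0 ≤ V.sg (n + 1) ^ (1 / 200 : ℝ)
      positivity
    · show 0 ≤ 1 / 4 * (V.cl (V.kk (n + 1)) : ℝ) ^ (-(3 / 4) : ℝ) * (2 - V.sg n ^ (1 / 400 : ℝ))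
      have h6 : V.sg n ^ (1 / 400 : ℝ) ≤ 1 := Real.rpow_le_one (AHH.H61.sg_pos hV n).le
        ((AHH.H61.sg_le hV n).trans (by linarith)) (by norm_num)
      have h7 : 0 ≤ (V.cl (V.kk (n + 1)) : ℝ) ^ (-(3 / 4) : ℝ) := by positivity
      have h8 : 0 ≤ 2 - V.sg n ^ (1 / 400 : ℝ) := by linarith
      positivity
    · exact hNs.mis
    · show C + AHH.gr V (1 / 20) n (V.kk (n + 1)) + V.sg (n + 1) ^ (1 / 10 : ℝ) * 2 ≤ 4 * C / 2
      have h6 := (AHH.gr_bd V hV.th.2.le (p := 1 / 20) (by norm_num) n (V.kk (n + 1))).2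
      have h7 := hNw.del
      have h8 : V.sg (n + 1) ^ (1 / 10 : ℝ) * 2 ≤ 1 / 2 := hNs.icR
      linarith
    · linarith
    · show 1 / 4 * (V.cl (V.kk (n + 1)) : ℝ) ^ (-(3 / 4) : ℝ) * (2 - V.sg n ^ (1 / 400 : ℝ)) *
        (1 + V.sg (n + 1) ^ (1 / 200 : ℝ) * 2) ≤ (qn (sn V n))⁻¹ ^ 1500
      rw [qn_inv_pow hs]
      have h6 : 0 ≤ V.sg n ^ (1 / 400 : ℝ) := Real.rpow_nonneg (AHH.H61.sg_pos hV n).le _
      have h7 : V.sg n ^ (1 / 400 : ℝ) ≤ 1 := Real.rpow_le_one (AHH.H61.sg_pos hV n).le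
        ((AHH.H61.sg_le hV n).trans (by linarith)) (by norm_num)
      have h8 : 1 + V.sg (n + 1) ^ (1 / 200 : ℝ) * 2 ≤ 2 := hNs.lR
      have h9 : 0 ≤ (sn V n) ^ (-(3 / 4) : ℝ) := by positivity
      have h10 : 0 ≤ V.sg (n + 1) ^ (1 / 200 : ℝ) := by positivity
      have e1 : -(((1500 : ℕ) : ℝ) / 2000) = -(3 / 4 : ℝ) := by norm_num
      rw [e1]
      show 1 / 4 * (sn V n) ^ (-(3 / 4) : ℝ) * (2 - V.sg n ^ (1 / 400 : ℝ)) *
        (1 + V.sg (n + 1) ^ (1 / 200 : ℝ) * 2) ≤ _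
      calc 1 / 4 * (sn V n) ^ (-(3 / 4) : ℝ) * (2 - V.sg n ^ (1 / 400 : ℝ)) *
            (1 + V.sg (n + 1) ^ (1 / 200 : ℝ) * 2)
          ≤ 1 / 4 * (sn V n) ^ (-(3 / 4) : ℝ) * 2 * 2 := by
            refine mul_le_mul (mul_le_mul_of_nonneg_left (by linarith) (by positivity)) h8
              (by positivity) (by positivity)
        _ = _ := by ring
    · rw [qn_inv_pow hs]
      refine (h.cardQ hV).trans ?_
      refine Real.rpow_le_rpow_of_exponent_ge hs (by linarith) ?_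
      norm_num
      linarith
  have hKq := hNs.Kq
  have hK₀q : K₀ * qn (sn V n) ≤ 1 := by
    refine le_trans (mul_le_mul_of_nonneg_right ?_ hq.le) hKq
    linarith
  obtain ⟨hHyp, hAtt⟩ := hatt V.X (Hm d (2 ^ V.μ) V.E) V.e₀ T (run ∩ V.G.nbh Q (V.G.ρ n))
    (run ∩ V.G.nbh Q (rkn (sn V n))) Q (V.cl (V.kk (n + 1))) v (qn (sn V n)) hIn0 hK₀q
    (Rk_sub hV (by linarith) h) (cardR hV (by linarith) hs3 h)
    (hfarK hd hV hG.e0 hc hc1 (by linarith) (by linarith) hNs.far h v)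
    (hfar₀K hd hV hG.e0 hc hc1 (by linarith) (by linarith) hNs.far h)
  have hfin := hAtt Okf fun T' Go hSt hU hF => hOk T' ?_
  · refine att_sub (Rk_sub hV (by linarith) h) (fun _ h => h) ?_
    exact Att.mono _ _ _ (ENNReal.ofReal_le_ofReal (p_ok hV (by linarith) hβ h.nN)) hfin
  · have hIn := ATT.H76.toIn ATT.H38.net_ hIn0 (by positivity) (by positivity)
    refine AHH.H76.fin1 ATT.H38.out_ (toE V c C) n T T' run Q
      (run ∩ V.G.nbh Q (rkn (sn V n))) (V.cl (V.kk (n + 1))) v (qn (sn V n)) (c / 2) (2 * C)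
      (4 * C) hIn K hKq (by linarith) (by linarith) (by positivity) _ _ _ _ _ hHyp Go hSt hU hF
      h.rl.sub.2 (fun x hx => (h.pen x hx).1) (rkn (sn V n)) (V.Kn n)
      Finset.inter_subset_right ?_ _ _ _ _ ?_ hNs.mm hNs.MM ?_
    · refine hNs.kn.trans ?_
      rw [hV.sc.kn n h.nN]
      have := Nat.lt_floor_add_one (sn V n ^ (-(6 / 5 : ℝ)))
      show sn V n ^ (-(6 / 5 : ℝ)) - 1 ≤ (⌊sn V n ^ (-(6 / 5 : ℝ))⌋₊ : ℝ)
      linarith
    · rw [qn_pow hs]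
      exact Real.rpow_le_rpow_of_exponent_ge hs (by linarith) (by norm_num)
    · rw [qn_pow hs]
      refine le_of_eq ?_
      show _ = sn V n ^ (1 / 10 : ℝ)
      norm_num

end Pool.Agent.AND2B.H28
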