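import Pool.Agent.Helper28_AHH.KGeo
import Pool.Agent.Helper38_ATT.All
import Pool.Agent.Helper76_ATT.Att
import Pool.Agent.Helper61_AHH.Num

/-!
# AND2B, field kil (helper28): hypotheses of the attempt which do not depend on the state
-/

set_option autoImplicit false
set_option linter.unusedSectionVars false

open scoped BigOperators NNReal ENNReal

noncomputable section

namespace Pool.Agent.AND2B.H28

open Pool.Agent.AND.Num
open Pool.Agent.ANP (Cfg Att)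
open Pool.Agent.AHH (toE bud Rl Al gg)
open Pool.Agent.ATT.H76 (mkA In0)

/-! ### `Att` is monotone -/

theorem att_sub {X : Type} [Fintype X] [DecidableEq X] {R R' Q : Finset X} {v : X → ℝ}
    {Ok Ok' : Cfg X → Prop} (hR : R ⊆ R') (hOk : ∀ T, Ok T → Ok' T) {T : Cfg X} {q : ℝ≥0∞}
    (h : Att R Q v Ok T q) : Att R' Q v Ok' T q := by
  induction h with
  | ok T h => exact Att.ok T (hOk T h)
  | one T => exact Att.one T
  | mono T q q' hq _ ih => exact Att.mono T q q' hq ih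
  | ap T b q hb _ ih => exact Att.ap T b q hb ih
  | kill T D q hD hs hq _ ih => exact Att.kill T D q (hD.trans hR) hs hq ih

variable {d : ℕ} {V : Env d} {c C : ℝ} {n : ℕ} {T₀ T : Cfg V.X} {run₀ run P Q : Finset V.X}

/-- the number of sites near the cluster -/
theorem card_nbh {X : Type} [Fintype X] [DecidableEq X] (Γ : ANP.Geo X) (hG : ANP.GeoOk Γ d)
    (Q : Finset X) (t : ℕ) : (Γ.nbh Q t).card ≤ Q.card * (2 * t + 1) ^ d := by
  have h1 : Γ.nbh Q t ⊆ Q.biUnion fun x => ({y | Γ.D x y ≤ t} : Finset X) := by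
    intro x hx
    unfold ANP.Geo.nbh at hx
    obtain ⟨-, y, hy, hxy⟩ := Finset.mem_filter.1 hx
    rw [Finset.mem_biUnion]
    refine ⟨y, hy, Finset.mem_filter.2 ⟨Finset.mem_univ _, ?_⟩⟩
    rw [hG.comm]
    exact hxy
  refine (Finset.card_le_card h1).trans ?_
  refine Finset.card_biUnion_le_card_mul _ _ _ fun x _ => hG.vol x t

/-- the exponent of the number of sites of `R` -/
def DD (d : ℕ) : ℕ := 2000 * (5 * d + 2)

theorem cardR {a : ℝ} (hV : V.Pre a) (hc₁ : V.c₁ ≤ 1) (hs1 : sn V n ≤ 1 / 3)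
    (h : KH V c C n T₀ run₀ P T run Q) :
    ((run ∩ V.G.nbh Q (V.G.ρ n)).card : ℝ) ≤ (qn (sn V n))⁻¹ ^ DD d := by
  have hs : 0 < sn V n := sg_pos hV (n + 1)
  set s := sn V n with hsn
  have hG : ANP.GeoOk V.G d := ANP.H61.trg d V.μ V.l _ hV.sc.lm V.J V.N
  have h1 : ((run ∩ V.G.nbh Q (V.G.ρ n)).card : ℝ) ≤
      (Q.card : ℝ) * (2 * (2 : ℝ) ^ V.r n + 1) ^ d := by
    have := (Finset.card_le_card (Finset.inter_subset_right (s₁ := run)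
      (s₂ := V.G.nbh Q (V.G.ρ n)))).trans (card_nbh V.G hG Q (V.G.ρ n))
    have h3 : V.G.ρ n = 2 ^ V.r n := rfl
    rw [h3] at this ⊢
    exact_mod_cast this
  have h2 : (Q.card : ℝ) ≤ s ^ (-(1 : ℝ)) :=
    (h.cardQ hV).trans (Real.rpow_le_rpow_of_exponent_ge hs (by linarith) (by linarith))
  have h3 : (2 : ℝ) ^ V.r n ≤ s ^ (-(4 : ℝ)) := hV.sc.rup n h.nN
  have h4 : (1 : ℝ) ≤ s ^ (-(4 : ℝ)) := Real.one_le_rpow_of_pos_of_le_one_of_nonpos hs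
    (by linarith) (by norm_num)
  have h5 : 2 * (2 : ℝ) ^ V.r n + 1 ≤ s ^ (-(5 : ℝ)) := by
    have e1 : s ^ (-(4 : ℝ)) = s * s ^ (-(5 : ℝ)) := by
      nth_rewrite 2 [← Real.rpow_one s]
      rw [← Real.rpow_add hs]
      norm_num
    have e2 : 0 < s ^ (-(5 : ℝ)) := Real.rpow_pos_of_pos hs _
    nlinarith
  have h6 : (qn s)⁻¹ ^ DD d = s ^ (-(5 * (d : ℝ) + 2)) := by
    rw [qn_inv_pow hs]
    congr 1
    unfold DD
    push_cast
    ring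
  rw [h6]
  calc ((run ∩ V.G.nbh Q (V.G.ρ n)).card : ℝ) ≤ (Q.card : ℝ) * (2 * (2 : ℝ) ^ V.r n + 1) ^ d := h1
    _ ≤ s ^ (-(1 : ℝ)) * (s ^ (-(5 : ℝ))) ^ d := by
        gcongr
    _ = s ^ (-(5 * (d : ℝ) + 1)) := by
        rw [← Real.rpow_natCast (s ^ (-(5 : ℝ))), ← Real.rpow_mul hs.le, ← Real.rpow_add hs]
        congr 1
        ring
    _ ≤ _ := Real.rpow_le_rpow_of_exponent_ge hs (by linarith) (by linarith)

/-- the numbers of `far` -/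
def FarN (d : ℕ) (c K s : ℝ) : Prop := ∀ (D z : ℝ), D ≤ K * s ^ (-(5 / 4 : ℝ)) →
      z ≤ s ^ (-(113 / 100 : ℝ)) + s ^ (-(1 : ℝ)) →
      2 * Real.exp (-(c * s / 2 / (4 * d) * ((rkn s : ℝ) / 2 - (1 + 2 * (D + 3 ^ d * z)) - 1))) <
        qn s ^ 2250 ∧
      2 / (c * s / 2) *
        Real.exp (-(c * s / 2 / (4 * d) * ((rkn s : ℝ) / 2 - (1 + 2 * (D + 3 ^ d * z)) - 1))) ≤
        qn s ^ 200

theorem hfarK {a : ℝ} (hd : 0 < d) (hV : V.Pre a) (he : 0 < V.e₀) (hc : 0 < c) (hc1 : c ≤ 1)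
    (hc₁ : V.c₁ ≤ 1) (hs1 : sn V n ≤ 1 / 2) (hN : FarN d c (Kd d V.th) (sn V n))
    (h : KH V c C n T₀ run₀ P T run Q) (v : V.X → ℝ) :
    ∀ (T' : Cfg V.X) (Qr : Finset V.X) (Go : Matrix V.X V.X ℂ),
      (AA V c C n T run Q v).St T' Qr Go → ∀ b ∈ Qr, ∀ x ∈ (AA V c C n T run Q v).al T',
        x ∉ run ∩ V.G.nbh Q (rkn (sn V n)) →
        (AA V c C n T run Q v).a T' b x < qn (sn V n) ^ 2250 := by
  intro T' Qr Go hSt b hb x hx hxk
  have hg := pgeo hd hV he hc hc1 hc₁ hs1 h v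
  have h1 := hfar hg (fun y hy => by
    have hy' : y ∈ run := (Finset.mem_inter.1 hy).1
    have := h.fc.runs y hy'
    rw [if_neg (Finset.notMem_empty y)] at this
    exact this) (fun y hy => (h.pen y hy).2.ne') T' Qr Go hSt b hb x hx hxk
  refine lt_of_le_of_lt h1 ?_
  exact (hN _ _ (sum_Dn hV h.nN) (zz_le hV hc₁ (by linarith) h)).1

theorem hfar₀K {a : ℝ} (hd : 0 < d) (hV : V.Pre a) (he : 0 < V.e₀) (hc : 0 < c) (hc1 : c ≤ 1)
    (hc₁ : V.c₁ ≤ 1) (hs1 : sn V n ≤ 1 / 2) (hN : FarN d c (Kd d V.th) (sn V n))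
    (h : KH V c C n T₀ run₀ P T run Q) :
    ∀ b ∈ Q, ∀ x ∈ run ∩ V.G.nbh Q (V.G.ρ n), x ∉ run ∩ V.G.nbh Q (rkn (sn V n)) →
      ATT.ka V.e₀ V.e₀ T b * ‖ATT.GT (Hm d (2 ^ V.μ) V.E) V.e₀ V.e₀ T b x‖ ^ 2 ≤
        qn (sn V n) ^ 200 := by
  intro b hb x hx hxk
  rw [ka_eq, GT_eq]
  have hg := pgeo hd hV he hc hc1 hc₁ hs1 h (fun _ => 0)
  have h1 := hfar₀ hg b hb x hx hxk
  refine h1.trans ?_
  exact (hN _ _ (sum_Dn hV h.nN) (zz_le hV hc₁ (by linarith) h)).2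

/-- the failure probability -/
theorem p_ok {a : ℝ} (hV : V.Pre a) (hw1 : (V.w : ℝ) ≤ 1) (hβ : V.β ≤ 1 / 2000) (hn : n ≤ V.N) :
    Real.exp (-(qn (sn V n))⁻¹) ≤ V.p n := by
  have hs : 0 < sn V n := sg_pos hV (n + 1)
  show _ ≤ pf V.w V.th V.kk V.β V.N n
  unfold pf
  rw [if_pos hn]
  refine Real.exp_le_exp.2 (neg_le_neg ?_)
  have h1 : sn V n ≤ V.sg n := AHH.H61.sg_anti hV (Nat.le_succ n)
  have h2 : V.sg n ≤ 1 := (AHH.H61.sg_le hV n).trans hw1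
  have h3 := AHH.H61.sg_pos hV n
  have h4 : (qn (sn V n))⁻¹ = sn V n ^ (-(1 / 2000 : ℝ)) := by
    unfold qn
    rw [Real.rpow_neg hs.le]
  rw [h4]
  calc V.sg n ^ (-V.β) ≤ V.sg n ^ (-(1 / 2000 : ℝ)) :=
        Real.rpow_le_rpow_of_exponent_ge h3 h2 (by linarith)
    _ ≤ _ := Real.rpow_le_rpow_of_nonpos hs h1 (by norm_num)

end Pool.Agent.AND2B.H28
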