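import Pool.Agent.Helper28_AHH.Kil
import Pool.Agent.Helper34_KL2.Kil2
import Pool.Agent.Helper41_AHH.KN1
import Pool.Agent.Helper41_AHH.KN2
import Pool.Agent.Helper30_AHH.Dat

/-!
# AND2B (helper28): THE FIELD `kil`: its second half, from the numbers
-/

set_option autoImplicit false
set_option linter.unusedSectionVars false

open scoped BigOperators NNReal ENNReal

noncomputable section

namespace Pool.Agent.AND2B.H28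

open Pool.Agent.AND.Num
open Pool.Agent.ANP (Cfg Att)
open Pool.Agent.AHH (toE bud Rl)
open Pool.Agent.AHH.H30 (clu Side ev_side cards cx Kz)
open Pool.Agent.KL2

/-- the numbers `KN3` -/
def Kn3Stmt : Prop := ∀ (d : ℕ) (a c C : ℝ), 3 ≤ d → 0 < a → 0 < c → c ≤ 1 / 2 → 1 ≤ C →
  Ev d a AHH.es c C fun V => ∀ n, 1 ≤ n → n ≤ V.N → ∃ (Jc Jr : ℕ) (ε u : ℝ),
    KN3 d (clu V n + V.Kn n) Jc Jr (V.G.ρ n) (rkn (V.sg (n + 1))) (c / 2) (1 - 1 / (2 * C))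
      (c * (V.w : ℝ) ^ (8 * AHH.es - 1)) (4 * C ^ 3 / V.w)
      ((bud V).q n (V.kk (n + 1))).rho ((bud V).nR n) ((bud V).tau n)
      (V.sg (n + 1) * (c / 2)) (V.sg (n + 1) * (c / 2) / (8 * d))
      (Real.exp (-(V.sg (n + 1) ^ (-(1 / 2) : ℝ)))) (V.sg (n + 1) ^ (-V.c₁))
      (V.sg (n + 1) ^ (1033 / 1000 : ℝ)) (V.sg (n + 1) ^ (33 / 1000 : ℝ))
      (V.sg (n + 1) ^ (-(1 / 5) : ℝ)) (V.sg (n + 1) ^ (1024 / 1000 : ℝ))
      (V.sg (n + 1) ^ (24 / 1000 : ℝ)) (V.sg (n + 1) ^ (-(201 / 1000) : ℝ)) ε u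

/-- THE SECOND HALF -/
theorem kilS (h3 : Kn3Stmt) : KilSStmt := by
  intro d a c C hd ha hc hc' hC
  have hd0 : 0 < d := by omega
  have e1 := AHH.H61.ev_good (d := d) (a := a) (es := AHH.es) (c := c) (C := C)
  have e2 := AHH.H61.ev_c1 (d := d) (a := a) (es := AHH.es) (c := c) (C := C) (1 / 1000)
    (by norm_num)
  have e3 := h3 d a c C hd ha hc hc' hC
  have e4 := ev_side d a c C hc hC
  have e5 := AHH.H61.ev_small (d := d) (a := a) (es := AHH.es) (c := c) (C := C)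
    (fun th c₁ _ _ _ s => ∀ (n : ℕ) (Dn : ℕ → ℕ) (μ k clu kn : ℕ) (e₀ lam J mm MM hK : ℝ),
      AHH.H41.Dat d c₁ (Kz d th) s n Dn μ k clu kn e₀ lam J mm MM hK →
      KN1 (s * (c / 2)) (c / 2) lam (s ^ (1 / 10 : ℝ)) (s ^ (1 / 200 : ℝ)) (s ^ (1 / 100 : ℝ))
        (s ^ (5 * (d : ℝ))) (2 * C + 3)
        (J + 4 / (s * (c / 2)) *
          Real.exp (-(s * (c / 2) / (8 * d) / 4 * ((2 ^ (k + 2) : ℕ) : ℝ))))
        (mm + 8 / (s * (c / 2)) *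
          Real.exp (-(s * (c / 2) / (8 * d) / 4 * ((2 ^ (k + 2) : ℕ) : ℝ))))
        (8 / (s * (c / 2))) (s * (c / 2) / (8 * d) / 4) (s ^ (10 : ℝ)) (2 ^ (k + 2)))
    fun th c₁ _ _ _ _ _ _ _ => AHH.H41.kn1 d (c / 2) (2 * C + 3) c₁ (Kz d th) hd
      (by positivity) (by positivity)
  have e6 := AHH.H61.ev_small (d := d) (a := a) (es := AHH.es) (c := c) (C := C)
    (fun th c₁ _ _ _ s => c₁ ≤ 1 / 1000 → ∀ (n : ℕ) (Dn : ℕ → ℕ) (μ k clu kn : ℕ)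
      (e₀ lam J mm MM hK : ℝ),
      AHH.H41.Dat d c₁ (Kz d th) s n Dn μ k clu kn e₀ lam J mm MM hK →
      ∀ nQ nK : ℝ, 0 ≤ nQ → nQ ≤ s ^ (-(1 / 1000) : ℝ) → 0 ≤ nK → nK ≤ s ^ (-(6 / 5) : ℝ) →
      KN2 d n Dn μ k ⌊s ^ (-(8 / 5) : ℝ)⌋₊ ⌊s ^ (-(8 / 5) : ℝ)⌋₊ (clu + kn)
        s (c / 2) (2 * C) e₀ lam (2 * C + 3) (s * (c / 2)) (s * (c / 2) / (8 * d))
        (s * (2 * C + 1)) nQ nK
        (16 * Real.exp (2 * (s * (c / 2) / (8 * d)) * Zc d n fun j => 2 * Dn j))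
        (Real.exp (-(s ^ (-(1 / 2) : ℝ)))) mm MM hK
        (s ^ (1033 / 1000 : ℝ)) (s ^ (33 / 1000 : ℝ)) (s ^ (-(1 / 5) : ℝ))
        (s ^ (1024 / 1000 : ℝ)) (s ^ (24 / 1000 : ℝ)) (s ^ (-(201 / 1000) : ℝ)))
    fun th c₁ _ _ _ _ _ _ _ => by
      by_cases h : c₁ ≤ 1 / 1000
      · exact (AHH.H41.kn2 d (c / 2) (2 * C) (2 * C + 3) c₁ (Kz d th) hd (by positivity)
          (by positivity) (by positivity) h).mono fun s _ h _ => h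
      · exact (small_le 1 one_pos).mono fun s _ _ h' => absurd h' h
  refine (((((e1.and e2).and e3).and e4).and e5).and e6).imp ?_
  rintro V ⟨⟨⟨⟨⟨hG, hc₁⟩, e3⟩, e4⟩, e5⟩, e6⟩ n T₀ T run₀ run P Q v T' hK hF -
  have hV : V.Pre a := hG.toPre
  obtain ⟨Jc, Jr, ε, u, hN3⟩ := e3 n hK.n1 hK.nN
  obtain ⟨k, hS⟩ := e4 n hK.n1 hK.nN
  obtain ⟨c1, c2, c3, c4⟩ := cards hS hK hF
  have hs := hS.s0
  have hs1 := hS.s1
  have hD := hS.dat (V.sg (n + 1) ^ (3 / 25 : ℝ)) (V.sg (n + 1) ^ (1 / 30 : ℝ))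
    (V.sg (n + 1) ^ (-(1 / 5) : ℝ)) (V.sg (n + 1) ^ (1 / 10 : ℝ)) (by positivity) le_rfl
    (by positivity) le_rfl le_rfl (by positivity) le_rfl
  have hρ : V.G.ρ n = 2 ^ (k + 2) := by
    show 2 ^ V.r n = _
    rw [hS.hr]
  have hN1 := e5 (V.sg (n + 1)) hs (AHH.H61.sg_le hV _) n V.Dn V.μ k (clu V n) (V.Kn n) V.e₀
    ((bud V).q n (V.kk (n + 1))).lam _ _ _ _ hD
  have hN2 := e6 (V.sg (n + 1)) hs (AHH.H61.sg_le hV _) hc₁ n V.Dn V.μ k (clu V n) (V.Kn n)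
    V.e₀ ((bud V).q n (V.kk (n + 1))).lam _ _ _ _ hD (V.sg (n + 1) ^ (-V.c₁))
    (V.sg (n + 1) ^ (-(6 / 5) : ℝ)) (by positivity)
    (Real.rpow_le_rpow_of_exponent_ge hs (by linarith) (by linarith)) (by positivity) le_rfl
  rw [← hρ] at hN1
  exact Cx.kil2 (V := toE V c C) (b := bud V) hd (cx hV hG.e0 hc hK hF) (k := k)
    (t := rkn (V.sg (n + 1))) (nS := clu V n + V.Kn n) (Jc := Jc) (Jr := Jr) hN1 hN2 hN3
    (by positivity) hS.hr hS.eps c1 c2 c3 c4 hS.sum hS.hZ hS.hCg hS.icR hS.lR hS.yR hS.phi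

/-- THE FIELD `kil`, from the numbers `KN3` -/
theorem kilF3 (h3 : Kn3Stmt) : AHH.KilF := kilF (kilS h3)

end Pool.Agent.AND2B.H28
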